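import Pool.Agent.H950.ON.Defs

/-!
Statements of the project ON (definitions: `Pool.Agent.H950.ON.Defs`; `Hx`, `Vx`, `Ed`, `s1`, `s2`, `up`,
`dn`, `Conf`, `thru`, `loops`, `weight`: library `Pool.Agent.X136.ON.Defs`). Library tools: files
`Aff.lean`, `Side.lean` of `Pool/Graph/R_pool_sql_team_seeded_64922ed1/X136/ON/` (parity of the degrees
`par`, `ch`, potentials `ray`, `cfg`, `sum_cfg`, `joined_ends`, `even_part`, `Simply`, ...).
-/

set_option autoImplicit false

namespace Pool.Agent.H950.ON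

open Pool.Agent.X136.ON MeasureTheory TopologicalSpace

/-! ### Potentials -/

/-- **O1.** Potentials (the plane is simply connected). `J` is a set of edges such that each vertex of
the hexagonal lattice has an even number (`0` or `2`) of edges of `J`: then `J` is the set of the edges
which separate a set `S` of hexagons from its complement.
Proof: define `S` by parities: `h (i, 0)` by the parity of the edges `(k, 0, A)` of `J` between `0` and
`i`, then `h (i, j)` by the parity of the edges `(i, k, B)` in the column `i`; it remains to check the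
rule for the edges `(i, j, A)` by induction on `|j|`, with the parities at the vertices
`(i, j, false)`, `(i, j, true)`. (The edges at a vertex: `Inc`, library lemma `inc_iff`.) -/
def S_pot : Prop := ∀ J : Set Ed,
  (∀ v : Vx, Even {e | e ∈ J ∧ Inc v e}.ncard) →
  ∃ S : Set Hx, ∀ e, e ∈ J ↔ ¬ (s1 e ∈ S ↔ s2 e ∈ S)

/-! ### The configurations as colourings -/

/-- **O2.** `F ↦ om F` is a bijection from the subsets of `ins` to the configurations.
Proof: the library theorem `sum_cfg` with `E = D.E`, `ρ = D.om ∅` (the walls of the set `W`): one has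
`inn D.E = D.ins`, `Simply D.E` (a hexagon which is not in `ins` is in `W` or `Z`, or in a row
outside; the hexagons of `W` are connected through edges outside of `D.E`, in the same way those of
`Z`, and `W` and `Z` are joined through the rows above `hi`), `D.om ∅ ∈ Conf D.E D.a D.b`,
`Bdry D.E D.a`, `Bdry D.E D.b` and `cfg D.E (D.om ∅) F = D.om F`. (The only edge of `D.E` at `D.a` is
`(w hi, hi, A)`, the only one at `D.b` is `(w lo, lo, A)`, and they are always in `D.om F`. At every
other vertex the edges of `D.om F` are all the walls at this vertex, or there is none.) -/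
def S_bij : Prop := ∀ (D : TD) (g : Finset Ed → ℝ),
  ∑ ω ∈ Conf D.E D.a D.b, g ω = ∑ F ∈ D.ins.powerset, g (D.om F)

/-- **O3.** The edges of the path are the edges between the two sides `R` and `Rᶜ`, and these are the
edges between `C` and `N`. Proof: let `I` be the set of the edges with one hexagon in `C` and the
other one in `N` (`F ⊆ ins`). At every vertex `I` has `0` or `2` edges (if `s ∈ C`, `t ∈ N` are adjacent
and `u` is the third hexagon at the vertex, then `u ∈ C` if `u` has the first colour, and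
`u ∈ N` otherwise). By O1 `I` is the set of the walls of a set `S`; we may assume `C ∩ S = ∅`, and then
`N ⊆ S` (`C` is connected and not adjacent to itself through edges of `I`; `W` and `Z` are adjacent in the
rows above `hi`). (a) an edge with `s ∈ R`, `t ∉ R` is in `I`: `t` is joined to `Z` outside of `C`,
so `s ∈ C`, and `t ∉ C` has the second colour; `t ∈ S` because the path from `Z` to `t` avoids `C` and so
crosses no edge of `I`; if `t ∉ N` then the edge is not in `I`, so `s ∈ S`: contradiction. (b) conversely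
`C ⊆ R`, `N ⊆ Rᶜ`. (c) the component of `D.a` in `D.om F`: `I ∩ D.E` contains the edge at `D.a`, and all
edges of `D.om F` at a vertex of an edge of `I ∩ D.E` are in `I`; so the path is contained in `I`. If an
edge of `I ∩ D.E` were not in the path, let `J` be the set of the edges of `I ∩ D.E` which are not joined
to `D.a`; all its degrees are even (`D.b` is joined to `D.a`: `joined_ends`); by O1 it is the set of
the walls of a set `S'`, which is constant on `C` and on `N` (no edge of `J` joins two hexagons of `C`,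
or two of `N`); the edge at `D.a` is not in `J`, so the two constants are equal, and
`J = ∅`. -/
def S_pth : Prop := ∀ (D : TD), ∀ F ⊆ D.ins,
  (∀ e, e ∈ thru (D.om F) {D.a} ↔ e ∈ D.Gam F) ∧
  (∀ e, e ∈ D.Gam F ↔ e ∈ D.E ∧ ((s1 e ∈ D.C F ∧ s2 e ∈ D.N F) ∨ (s1 e ∈ D.N F ∧ s2 e ∈ D.C F)))

/-! ### Clusters -/

/-- Number of clusters of a finite set of hexagons. -/
noncomputable def kc (A : Finset Hx) : ℕ := {K : Set Hx | ∃ v ∈ A, K = {u | Con ↑A v u}}.ncard

/-- **O4.** Second differences of the number of clusters. Proof by linear algebra: for `U = A ∪ {u, v}`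
let `X_0, X_u, X_v, X_U` be the spaces of the functions `f : U → ℝ` with `f s = f t` for all
neighbours `s, t` in `A`, in `A ∪ {u}`, in `A ∪ {v}`, in `U` (resp.). Then `dim X_0 = kc A + 2`,
`dim X_u = kc (A ∪ {u}) + 1`, `dim X_v = kc (A ∪ {v}) + 1`, `dim X_U = kc U`; `X_u ⊔ X_v ≤ X_0`;
`X_u ⊓ X_v = X_U` if `u`, `v` are not neighbours or have a common neighbour in `A`, and
`dim (X_u ⊓ X_v) ≤ dim X_U + 1` in general. (Such a computation of the dimension for edges of `ℤ²` is
in `Pool/Agent/H950/FK/Pf/Super.lean`, theorem `finrank_SA`.) -/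
def S_kc : Prop := ∀ (A : Finset Hx) (u v : Hx), u ∉ A → v ∉ A → u ≠ v →
  kc (insert u A) + kc (insert v A) ≤ kc A + kc (insert u (insert v A)) + 1 ∧
  ((¬ Nbr u v ∨ ∃ w ∈ A, Nbr u w ∧ Nbr v w) →
    kc (insert u A) + kc (insert v A) ≤ kc A + kc (insert u (insert v A)))

/-- Number of walls of `A` in `V`. -/
noncomputable def wl (V A : Finset Hx) : ℕ :=
  {e : Ed | s1 e ∈ V ∧ s2 e ∈ V ∧ ¬ (s1 e ∈ A ↔ s2 e ∈ A)}.ncard

/-- The weight of the colouring `A` of `V`, up to a constant. -/
noncomputable def Ph (n x : ℝ) (V A : Finset Hx) : ℝ := x ^ wl V A * n ^ (kc A + kc (V \ A))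

/-- **O5.** The FKG lattice condition follows from the condition for two elements. -/
def S_loc : Prop := ∀ (V : Finset Hx) (f : Finset Hx → ℝ), (∀ A ⊆ V, 0 < f A) →
  (∀ A ⊆ V, ∀ u ∈ V, ∀ v ∈ V, u ∉ A → v ∉ A → u ≠ v →
    f (insert u A) * f (insert v A) ≤ f A * f (insert u (insert v A))) →
  ∀ A ⊆ V, ∀ B ⊆ V, f A * f B ≤ f (A ∩ B) * f (A ∪ B)

/-- A parallelogram of hexagons. -/
noncomputable def bx (l r c d : ℤ) : Finset Hx := Finset.Icc l r ×ˢ Finset.Icc c d

/-- **O6.** FKG for `n ≥ 1`, `n x² ≤ 1`. Proof from O4, O5: for `u, v ∉ A` put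
`Δ g = g A + g (A ∪ {u, v}) - g (A ∪ {u}) - g (A ∪ {v})`. For `g = wl V` one has `Δ g = 0` if `u`, `v`
are not neighbours and `Δ g = -2` if they are (an edge with at most one of `u, v` among its hexagons
contributes `0`). For `g = kc A + kc (V \\ A)`: by O4 for `A` and for `V \\ (A ∪ {u, v})`, `Δ g ≥ 0` if
they are not neighbours, and `Δ g ≥ -1` if they are, because they have a common neighbour in `V`
(`l < r`, `c < d`), which is in `A` or in `V \\ (A ∪ {u, v})`. So the ratio is at least `1`,
resp. at least `x ^ (-2) * n ^ (-1) ≥ 1`. -/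
def S_fkg : Prop := ∀ (n x : ℝ), 1 ≤ n → 0 < x → n * x ^ 2 ≤ 1 → ∀ (l r c d : ℤ), l < r → c < d →
  ∀ A ⊆ bx l r c d, ∀ B ⊆ bx l r c d,
    Ph n x (bx l r c d) A * Ph n x (bx l r c d) B ≤
      Ph n x (bx l r c d) (A ∩ B) * Ph n x (bx l r c d) (A ∪ B)

open Classical in
/-- The first colour in the parallelogram. -/
noncomputable def plV (D : TD) (V F : Finset Hx) : Finset Hx := V.filter fun h => h ∈ D.pl F

/-- The parallelogram `[l, r] × [c, d]` contains the domain, and the left and right sides of it are in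
`W` and in `Z`. -/
structure Fits (D : TD) (l r c d : ℤ) : Prop where
  lo : c < D.lo
  hi : D.hi < d
  w : ∀ y, c ≤ y → y ≤ d → l ≤ D.w y
  z : ∀ y, c ≤ y → y ≤ d → D.z y ≤ r

/-- **O7.** The number of walls. Proof: an edge with both hexagons in `V` which is not in `D.E` has both
hexagons in `W`, or both in `Z`, or it is in the rows outside, where all hexagons are in `W ∪ Z`: so
whether it is a wall does not depend on `F`. -/
def S_crd : Prop := ∀ (D : TD) (l r c d : ℤ), Fits D l r c d → ∃ k : ℕ, ∀ F ⊆ D.ins,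
  (D.om F).card + k = wl (bx l r c d) (plV D (bx l r c d) F)

/-- **O8.** The number of closed loops plus two is the number of clusters of both colours.
Proof by induction on `#F`. For `F = ∅`: no closed loop (the path is `D.om ∅`; use O3 with
`C = W`, `N = Wᶜ`), two clusters. Flip of `u ∈ ins \\ F`: put `V = bx l r c d`, `A = plV D V F`,
`B = V \\ A`, `p` the number of the clusters of `A` which are adjacent to `u`, and `q` the number of
the clusters of `B \\ {u}` which are adjacent to `u`. Then `kc (A ∪ {u}) + p = kc A + 1` and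
`kc B + q = kc (B \\ {u}) + 1`. It remains to show: the number of components of `D.om (F ∪ {u})` plus
`p` is the number of components of `D.om F` plus `q`. The components without edge of `bd u` are the
same for both (a vertex of a component which is a vertex of the hexagon `u` has at least one edge in
`bd u`). The components of `D.om F` with an edge of `bd u` correspond to the clusters of `A`
adjacent to `u` (two walls with a common vertex separate the same pair of clusters (plus cluster,
minus cluster): the third edge is not a wall; and by the potentials O1 all walls between a plus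
cluster `K` and a minus cluster `M` are in the same component: if `J` is the component of one of
these walls (with the walls outside of `D.E` added, if it is the component of the path), it has even
degrees, so it is the set of the walls of a set `S`, which is constant on `K` and on `M`, and not equal,
so all walls between `K` and `M` are in `J`). In the same way the components of `D.om (F ∪ {u})` with
an edge of `bd u` correspond to the clusters of `B \\ {u}` which are adjacent to `u`. -/
def S_lps : Prop := ∀ (D : TD) (l r c d : ℤ), Fits D l r c d → ∀ F ⊆ D.ins,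
  loops (D.om F) D.a + 2 =
    kc (plV D (bx l r c d) F) + kc (bx l r c d \ plV D (bx l r c d) F)

/-! ### Couplings -/

/-- Couplings of the measures in the domains `D` and `D'`. -/
structure Coup (D D' : TD) (n x : ℝ) (κ : Finset Hx → Finset Hx → ℝ) : Prop where
  nn : ∀ F F', 0 ≤ κ F F'
  fst : ∀ F ⊆ D.ins, ∑ F' ∈ D'.ins.powerset, κ F F' = D.mu n x F
  snd : ∀ F' ⊆ D'.ins, ∑ F ∈ D.ins.powerset, κ F F' = D'.mu n x F'

open Classical in
/-- Probability of an event under the coupling. -/
noncomputable def Kp (D D' : TD) (κ : Finset Hx → Finset Hx → ℝ)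
    (A : Finset Hx → Finset Hx → Prop) : ℝ :=
  ∑ F ∈ D.ins.powerset, ∑ F' ∈ D'.ins.powerset, if A F F' then κ F F' else 0

/-- **O9.** Monotonicity of the measures, as a coupling.
Proof from O6, O7, O8: take `l, r, c, d` which fit `D` and `D'` and `V = bx l r c d`. For
`A ⊆ V` put `f A = 0` unless `W ∩ V ⊆ A` and `A ∩ Z = ∅`; then `A = plV D V F` with `F = A ∩ D.ins`, and
`f A = D.mu n x F`, which is `Ph n x V A` times a constant by O7, O8; `g` in the same way with `D'`.
Holley's condition for `f`, `g` holds since `W ⊆ W'`, `Z' ⊆ Z` and by O6. Apply the theorem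
`Pool.Agent.H950.FKp.coupling` (file `Pool/Agent/H950/FK/Pf/Coup.lean`, for subsets of any finite
set) and put `κ F F' = κ0 (plV D V F) (plV D' V F')`. (This is the same argument as in
`Pool/Agent/H950/FK/Pf/Cmp.lean`.) -/
def S_cmp : Prop := ∀ (D D' : TD), D.Le D' → ∀ n x : ℝ, 1 ≤ n → 0 < x → n * x ^ 2 ≤ 1 →
  ∃ κ : Finset Hx → Finset Hx → ℝ, Coup D D' n x κ ∧
    ∀ F ⊆ D.ins, ∀ F' ⊆ D'.ins, κ F F' ≠ 0 → D.pl F ⊆ D'.pl F'

/-- The left side of the path meets the box `[z, z + r]`. -/
def hitR (D : TD) (z : ℤ × ℤ) (r : ℤ) (F : Finset Hx) : Prop :=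
  ∃ h ∈ D.R F, (z.1 ≤ h.1 ∧ h.1 ≤ z.1 + r) ∧ (z.2 ≤ h.2 ∧ h.2 ≤ z.2 + r)

/-- The right side of the path meets the box `[z, z + r]`. -/
def hitN (D : TD) (z : ℤ × ℤ) (r : ℤ) (F : Finset Hx) : Prop :=
  ∃ h, h ∉ D.R F ∧ (z.1 ≤ h.1 ∧ h.1 ≤ z.1 + r) ∧ (z.2 ≤ h.2 ∧ h.2 ≤ z.2 + r)

/-- **O10.** Translation invariance. With `sh h = (h.1 + v.1, h.2 + v.2)`: `F ↦ F.image sh` is a
bijection from `D.ins.powerset` to `(D.shift v).ins.powerset`; everything is equivariant, so
`wt`, `mu` are invariant and `R` is translated by `v`. -/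
def S_shift : Prop := ∀ (D : TD) (v : ℤ × ℤ) (n x : ℝ) (z : ℤ × ℤ) (r : ℤ),
  (D.shift v).P n x (hitR (D.shift v) z r) = D.P n x (hitR D (z.1 - v.1, z.2 - v.2) r) ∧
  (D.shift v).P n x (hitN (D.shift v) z r) = D.P n x (hitN D (z.1 - v.1, z.2 - v.2) r)

/-- **O11.** A box which meets both sides of the path is near the path. Proof: the box contains two
neighbours `f ∈ R`, `g ∉ R` (go from a hexagon of `R` to one of `Rᶜ` in the box, by horizontal and
vertical steps). If both are in the rows from `lo` to `hi`, then the edge between them is in `Gam F`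
(not both in `W`, which is contained in `R`, not both in `Z`, which is disjoint from `R`). Otherwise for
example both are in rows `≥ hi`, where `R = W` and `Rᶜ = Z`; then `f.1 ∈ {w f.2 - 1, w f.2}`,
`f.2 ≤ hi + k` and the edge `(w hi, hi, A)`, which is in `Gam F`, works because
`|w f.2 - w hi| ≤ f.2 - hi` (`stop`). -/
def S_con : Prop := ∀ (D : TD), ∀ F ⊆ D.ins, ∀ x1 x2 y1 y2 k : ℤ, 0 ≤ k → y2 ≤ D.hi + k →
  D.lo - k ≤ y1 →
  (∃ h ∈ D.R F, (x1 ≤ h.1 ∧ h.1 ≤ x2) ∧ (y1 ≤ h.2 ∧ h.2 ≤ y2)) →
  (∃ h, h ∉ D.R F ∧ (x1 ≤ h.1 ∧ h.1 ≤ x2) ∧ (y1 ≤ h.2 ∧ h.2 ≤ y2)) →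
  ∃ e ∈ D.Gam F, (x1 - k - 1 ≤ (s1 e).1 ∧ (s1 e).1 ≤ x2 + k + 1) ∧
    (y1 - k - 1 ≤ (s1 e).2 ∧ (s1 e).2 ≤ y2 + k + 1)

/-- Sup-norm distance. -/
def sd (u v : Hx) : ℤ := max |u.1 - v.1| |u.2 - v.2|

/-- One of the paths has an edge which is far from all edges of the other one. -/
def Bad (D D' : TD) (m : ℤ) (F F' : Finset Hx) : Prop :=
  (∃ e ∈ D.Gam F, ∀ e' ∈ D'.Gam F', m < sd (s1 e) (s1 e')) ∨
  (∃ e' ∈ D'.Gam F', ∀ e ∈ D.Gam F, m < sd (s1 e) (s1 e'))

/-- Telescoping (theorem `Pool.Agent.H353.FK.t_sum`, file `Pool/Agent/H950/FK/Pf/Sum.lean`, for the same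
statement `Pool.Agent.H950.FK.S_sum`). -/
def S_sum : Prop := ∀ (u : ℤ × ℤ → ℝ), (∀ z, 0 ≤ u z) → (∀ z, u z ≤ 1) → ∀ (v : ℤ × ℤ) (a b c d : ℤ),
  a ≤ b + 1 → c ≤ d + 1 →
  |∑ z ∈ Finset.Icc a b ×ˢ Finset.Icc c d, (u (z.1 - v.1, z.2 - v.2) - u z)| ≤
    |(v.1 : ℝ)| * (d - c + 1) + |(v.2 : ℝ)| * (b - a + 1)

/-- **O12.** The main discrete theorem. Proof from O9, O10, O11 and the telescoping (the same argument
as in `Pool/Agent/H950/FK/Pf/Main.lean`). Take `κ` from O9 for `D ≤ D'`. If `κ F F' ≠ 0`, then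
`C F ⊆ C' F'`, and so `R F ⊆ R' F'`. Let `m = 2 r + 3 + |hi - hi'| + |lo - lo'|`.
(i) Let `e' ∈ Gam' F'` be far from `Gam F`, let `p ∈ R' F'`, `q ∉ R' F'` be its two hexagons, and let `Q` be
the box of the hexagons `h` with `sd (s1 e') h ≤ r + 1`. `Q` meets `(R F)ᶜ` (in `q`); by O11 with
`k = r + 1 + |hi - hi'| + |lo - lo'|` it does not meet `R F`. So `hitR D' z r F' ∧ ¬ hitR D z r F` for all
`z` with `p.1 - r ≤ z.1 ≤ p.1`, `p.2 - r ≤ z.2 ≤ p.2`.
(ii) Let `e ∈ Gam F` be far from `Gam' F'`, with the hexagons `q ∈ R F`, `p ∉ R F`. In the same way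
`hitN D z r F ∧ ¬ hitN D' z r F'` for these `z`.
All these `z` are in the window `[a - r, b] × [c - r, d]` (one of the two hexagons of an edge of `D.E` is
not in `W`, so both have `a ≤ x`, and one is not in `Z`, so both have `x ≤ b`). So `(r + 1)² κ(Bad)` is at
most `∑ z (P'(hitR z) - P(hitR z)) + ∑ z (P(hitN z) - P'(hitN z))`; use O9 for `D' ≤ D.shift v`, O10 and
the telescoping. -/
def S_main : Prop := ∀ (D D' : TD) (v : ℤ × ℤ) (n x : ℝ), 1 ≤ n → 0 < x → n * x ^ 2 ≤ 1 →
  D.Le D' → D'.Le (D.shift v) → ∀ (a b c d r : ℤ), (∀ y, c ≤ y → y ≤ d → a ≤ D.w y) →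
  (∀ y, c ≤ y → y ≤ d → D'.z y ≤ b) → c ≤ D.lo → c ≤ D'.lo → D.hi ≤ d → D'.hi ≤ d → 1 ≤ r →
  ∃ κ, Coup D D' n x κ ∧
    Kp D D' κ (Bad D D' (2 * r + 3 + |D.hi - D'.hi| + |D.lo - D'.lo|)) ≤
    2 * (|(v.1 : ℝ)| * (d - c + r + 1) + |(v.2 : ℝ)| * (b - a + r + 1)) / (r : ℝ) ^ 2

/-- **O13.** Proof from O3: the points of an edge `e` of the path are at distance at most `δ` from each
other, and `dist (pos δ (up e)) (pos δ (up e')) ≤ δ * (2 * sd (s1 e) (s1 e') + 1)`; the point
`pos δ D.a` is an end of the edge `(w hi, hi, A)` of the path. -/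
def S_trace : Prop := ∀ (D D' : TD), ∀ F ⊆ D.ins, ∀ F' ⊆ D'.ins, ∀ (m : ℤ) (δ : ℝ), 0 ≤ m → 0 < δ →
  ¬ Bad D D' m F F' →
  dist (trace δ D.a (D.om F)) (trace δ D'.a (D'.om F')) ≤ δ * (2 * m + 4)

end Pool.Agent.H950.ON
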