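import Pool.Agent.H950.ON.Pf.Pot
import Pool.Agent.H950.ON.Pf.Bij
import Pool.Agent.H950.ON.Pf.Pth
import Pool.Agent.H950.ON.Pf.Kc
import Pool.Agent.H950.ON.Pf.Loc
import Pool.Agent.H950.ON.Pf.Fkg
import Pool.Agent.H950.ON.Pf.Crd
import Pool.Agent.H950.ON.Pf.Lps
import Pool.Agent.H950.ON.Pf.Cmp
import Pool.Agent.H950.ON.Pf.Shift
import Pool.Agent.H950.ON.Pf.Conn
import Pool.Agent.H950.ON.Pf.Main
import Pool.Agent.H950.ON.Pf.Trace
import Pool.Agent.H950.FK.Pf.Sum

/-!
The discrete theorems. The proofs were written by helper618 (`Pot`), helper333 (`Bij`), helper289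
(`Pth`), helper345 (`Kc`, `KcG`), helper399 (`Loc`), helper591 (`Fkg`), helper190 (`Crd`), helper337
(`Lps`), helper294 (`Cmp`), helper788 (`Shift`), helper323 (`Conn`, `Main`), helper984 (`Trace`),
helper353 (`FK.Pf.Sum`).
-/

set_option autoImplicit false

namespace Pool.Agent.H950.ON

open Pool.Agent.X136.ON

theorem potT : S_pot := Pool.Agent.H618.ON.t_pot

theorem bijT : S_bij := Pool.Agent.H333.ONbij.t_bij

theorem simpleT (D : TD) : Simply D.E := Pool.Agent.H333.ONbij.simply D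

theorem bdryA (D : TD) : Bdry D.E D.a := Pool.Agent.H333.ONbij.bdry_a D

theorem bdryB (D : TD) : Bdry D.E D.b := Pool.Agent.H333.ONbij.bdry_b D

theorem pthT : S_pth := Pool.Agent.H289.ON.t_pth potT

theorem lpsT : S_lps := Pool.Agent.H337.ONL.t_lps potT pthT Pool.Agent.H345.ON.t_kc

theorem fkgT : S_fkg := Pool.Agent.H591.ONf.t_fkg Pool.Agent.H345.ON.t_kc Pool.Agent.H399.ON.t_loc

theorem cmpT : S_cmp := Pool.Agent.H294.ONc.t_cmp fkgT Pool.Agent.H190.ON.crd.t_crd lpsT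

theorem mainT : S_main := Pool.Agent.H323.ON.t_main cmpT Pool.Agent.H788.ONs.t_shift
  Pool.Agent.H323.ON.t_con Pool.Agent.H353.FK.t_sum

theorem traceT : S_trace := Pool.Agent.H984.ONtr.t_trace pthT

end Pool.Agent.H950.ON
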