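import Pool.Graph.R_pool_sql_team_seeded_64922ed1.X136.ON.Side
import Mathlib.MeasureTheory.Measure.LevyProkhorovMetric

/-!
# The loop O(n) model in domains between two graphs

Definitions of the library (`Pool.Agent.X136.ON`): the hexagons are indexed by `Hx = ℤ × ℤ`, the
hexagon `(i, j)` has the neighbours `(i ± 1, j)`, `(i, j ± 1)`, `(i + 1, j - 1)`, `(i - 1, j + 1)`; `Vx`
are the vertices, `Ed` the edges, `up e`, `dn e` the ends of the edge `e`, `s1 e`, `s2 e` its two
hexagons; `Conf E a b` are the configurations of the domain with the edges `E`, `thru ω {a}` is the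
path of the configuration `ω`, `loops ω a` the number of its closed loops, `weight n x a ω` its weight.
-/

set_option autoImplicit false

namespace Pool.Agent.H950.ON

open Pool.Agent.X136.ON TopologicalSpace

/-- Neighbouring hexagons. -/
def Nbr (f g : Hx) : Prop := ∃ e : Ed, (s1 e = f ∧ s2 e = g) ∨ (s1 e = g ∧ s2 e = f)

/-- `f` and `g` are joined by a path of hexagons of `A` (or equal). -/
def Con (A : Set Hx) (f g : Hx) : Prop :=
  Relation.ReflTransGen (fun u v => Nbr u v ∧ u ∈ A ∧ v ∈ A) f g

/-- A domain between two graphs: the hexagons `(x, y)` with `x ≤ w y` are on the left, those with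
`z y ≤ x` on the right of the domain. The domain consists of the rows from `lo` to `hi`; in the other
rows the left and the right part are adjacent. -/
structure TD where
  lo : ℤ
  hi : ℤ
  w : ℤ → ℤ
  z : ℤ → ℤ
  lohi : lo < hi
  lt : ∀ y, w y < z y
  bot : ∀ y, y ≤ lo → z y = w y + 1
  top : ∀ y, hi ≤ y → z y = w y + 1
  sbot : ∀ y, y < lo → |w (y + 1) - w y| ≤ 1
  stop : ∀ y, hi ≤ y → |w (y + 1) - w y| ≤ 1

namespace TD

variable (D : TD)

/-- The hexagons on the left. -/
def W : Set Hx := {h | h.1 ≤ D.w h.2}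

/-- The hexagons on the right. -/
def Z : Set Hx := {h | D.z h.2 ≤ h.1}

/-- The hexagons of the domain. -/
noncomputable def ins : Finset Hx :=
  (Finset.Ioo D.lo D.hi).biUnion fun y => (Finset.Ioo (D.w y) (D.z y)).image fun x => (x, y)

/-- The edges of the domain: both hexagons are in the rows from `lo` to `hi`, and they are not both on
the left and not both on the right of the domain. -/
def ES : Set Ed := {e | (D.lo ≤ (s1 e).2 ∧ (s1 e).2 ≤ D.hi) ∧ (D.lo ≤ (s2 e).2 ∧ (s2 e).2 ≤ D.hi) ∧
  ¬ (s1 e ∈ D.W ∧ s2 e ∈ D.W) ∧ ¬ (s1 e ∈ D.Z ∧ s2 e ∈ D.Z)}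

theorem mem_ins {h : Hx} : h ∈ D.ins ↔ h ∉ D.W ∧ h ∉ D.Z := by
  unfold ins W Z
  simp only [Finset.mem_biUnion, Finset.mem_Ioo, Finset.mem_image, Set.mem_ofPred_eq, not_le]
  constructor
  · rintro ⟨y, hy, x, hx, rfl⟩
    exact hx
  · rintro ⟨h1, h2⟩
    refine ⟨h.2, ⟨?_, ?_⟩, h.1, ⟨h1, h2⟩, rfl⟩
    · by_contra hc
      have := D.bot h.2 (by omega)
      omega
    · by_contra hc
      have := D.top h.2 (by omega)
      omega

theorem ES_fin : D.ES.Finite := by
  have h : D.ES ⊆ (fun p : (ℤ × ℤ) × Dir => ((p.1.1, p.1.2, p.2) : Ed)) ''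
      (((⋃ y ∈ Set.Icc (D.lo - 1) D.hi, (fun x => ((x, y) : ℤ × ℤ)) ''
        (Set.Icc (min (D.w y) (D.w (y + 1)) - 1) (max (D.z y) (D.z (y + 1)) + 1)))) ×ˢ
        ({Dir.A, Dir.B, Dir.C} : Set Dir)) := by
    rintro ⟨i, j, k⟩ he
    unfold ES W Z at he
    simp only [Set.mem_ofPred_eq, not_and, not_le] at he
    refine ⟨((i, j), k), ⟨?_, by cases k <;> simp⟩, rfl⟩
    simp only [Set.mem_iUnion, Set.mem_image, Set.mem_Icc]
    obtain ⟨h1, h2, h3, h4⟩ := he
    have l1 := D.lt j
    have l2 := D.lt (j + 1)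
    cases k
    · simp only [s1, s2] at h1 h2 h3 h4
      refine ⟨j, by omega, i, ⟨?_, ?_⟩, rfl⟩
      · by_contra hc
        have := h3 (by omega)
        omega
      · by_contra hc
        have := h4 (by omega)
        omega
    · simp only [s1, s2] at h1 h2 h3 h4
      refine ⟨j, by omega, i, ⟨?_, ?_⟩, rfl⟩
      · by_contra hc
        have := h3 (by omega)
        omega
      · by_contra hc
        have := h4 (by omega)
        omega
    · simp only [s1, s2] at h1 h2 h3 h4
      refine ⟨j, by omega, i, ⟨?_, ?_⟩, rfl⟩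
      · by_contra hc
        have := h3 (by omega)
        omega
      · by_contra hc
        have := h4 (by omega)
        omega
  refine Set.Finite.subset (Set.Finite.image _ (Set.Finite.prod ?_ ?_)) h
  · exact Set.Finite.biUnion (Set.finite_Icc _ _) fun y _ => (Set.finite_Icc _ _).image _
  · exact (Set.finite_singleton _).insert _ |>.insert _

/-- The edges of the domain. -/
noncomputable def E : Finset Ed := D.ES_fin.toFinset

theorem mem_E {e : Ed} : e ∈ D.E ↔ e ∈ D.ES := Set.Finite.mem_toFinset _

/-- The upper marked point. -/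
def a : Vx := (D.w D.hi, D.hi, false)

/-- The lower marked point. -/
def b : Vx := (D.w D.lo, D.lo - 1, true)

/-- The hexagons of the first colour. -/
def pl (F : Finset Hx) : Set Hx := D.W ∪ ↑F

open Classical in
/-- The configuration of the edges which separate the colours. -/
noncomputable def om (F : Finset Hx) : Finset Ed :=
  D.E.filter fun e => ¬ (s1 e ∈ D.pl F ↔ s2 e ∈ D.pl F)

/-- The hexagons of the first colour which are connected to the left part. -/
def C (F : Finset Hx) : Set Hx := {h | ∃ u ∈ D.W, Con (D.pl F) u h}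

/-- The hexagons of the second colour which are connected to the right part. -/
def N (F : Finset Hx) : Set Hx := {h | ∃ u ∈ D.Z, Con (D.pl F)ᶜ u h}

/-- The hexagons on the left of the path: they cannot be reached from the right part without
passing through `C F`. -/
def R (F : Finset Hx) : Set Hx := {h | ¬ ∃ u ∈ D.Z, Con (D.C F)ᶜ u h}

/-- The weight. -/
noncomputable def wt (n x : ℝ) (F : Finset Hx) : ℝ := weight n x D.a (D.om F)

/-- The probability of the colouring `F`. -/
noncomputable def mu (n x : ℝ) (F : Finset Hx) : ℝ := D.wt n x F / ∑ G ∈ D.ins.powerset, D.wt n x G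

open Classical in
/-- The probability of an event. -/
noncomputable def P (n x : ℝ) (A : Finset Hx → Prop) : ℝ :=
  ∑ F ∈ D.ins.powerset, if A F then D.mu n x F else 0

/-- The edges of the path. -/
def Gam (F : Finset Hx) : Set Ed := {e | e ∈ D.E ∧ ¬ (s1 e ∈ D.R F ↔ s2 e ∈ D.R F)}

/-- The domain translated by `v`. -/
def shift (D : TD) (v : ℤ × ℤ) : TD where
  lo := D.lo + v.2
  hi := D.hi + v.2
  w := fun y => D.w (y - v.2) + v.1
  z := fun y => D.z (y - v.2) + v.1
  lohi := by linarith [D.lohi]
  lt := fun y => by linarith [D.lt (y - v.2)]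
  bot := fun y hy => by
    have := D.bot (y - v.2) (by linarith)
    linarith
  top := fun y hy => by
    have := D.top (y - v.2) (by linarith)
    linarith
  sbot := fun y hy => by
    have := D.sbot (y - v.2) (by linarith)
    rw [show y + 1 - v.2 = y - v.2 + 1 by ring]
    rwa [add_sub_add_right_eq_sub]
  stop := fun y hy => by
    have := D.stop (y - v.2) (by linarith)
    rw [show y + 1 - v.2 = y - v.2 + 1 by ring]
    rwa [add_sub_add_right_eq_sub]

/-- Comparison of two domains. -/
structure Le (D D' : TD) : Prop where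
  w : ∀ y, D.w y ≤ D'.w y
  z : ∀ y, D.z y ≤ D'.z y

end TD

/-- The position of a vertex of the hexagonal lattice at mesh `δ` (`δ` is the distance between the
centres of neighbouring hexagons; the centre of the hexagon `(i, j)` is `δ (i + j exp (i π / 3))`). -/
noncomputable def pos (δ : ℝ) (v : Vx) : ℂ :=
  if v.2.2 then ⟨δ * (v.1 + v.2.1 / 2 + 1), δ * (√3 / 2 * (v.2.1 + 2 / 3))⟩
  else ⟨δ * (v.1 + v.2.1 / 2 + 1 / 2), δ * (√3 / 2 * (v.2.1 + 1 / 3))⟩

/-- The union of the edges of `γ`, and of the point `a`. -/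
noncomputable def curve (δ : ℝ) (a : Vx) (γ : Finset Ed) : Set ℂ :=
  {pos δ a} ∪ ⋃ e ∈ γ, segment ℝ (pos δ (up e)) (pos δ (dn e))

theorem curve_compact (δ : ℝ) (a : Vx) (γ : Finset Ed) : IsCompact (curve δ a γ) := by
  unfold curve
  refine isCompact_singleton.union (γ.isCompact_biUnion fun e _ => ?_)
  rw [segment_eq_image]
  exact isCompact_Icc.image (by fun_prop)

/-- The trace of the path of the configuration `ω`. -/
noncomputable def trace (δ : ℝ) (a : Vx) (ω : Finset Ed) : NonemptyCompacts ℂ :=
  ⟨⟨curve δ a (thru ω {a}), curve_compact _ _ _⟩, ⟨pos δ a, Or.inl rfl⟩⟩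

end Pool.Agent.H950.ON
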