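import Pool.Agent.H950.ON.Tr
import Pool.Agent.H950.FK.DomFam

/-!
Lattice approximations of the plane domains between two graphs.
-/

set_option autoImplicit false

namespace Pool.Agent.H950.ON

open Pool.Agent.X136.ON MeasureTheory TopologicalSpace Filter Topology Finset
open Pool.Agent.H950.FK (NC Yn lp_le_one tendsto_iff Dom Near small_pow)

/-- The lattice domain `G` at mesh `δ` approximates the plane domain `D` up to the error `s`. (The centre
of the hexagon `(x, y)` is `δ (x + y / 2, (√3 / 2) y)`.) -/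
structure Apx (D : Dom) (δ s : ℝ) (G : TD) : Prop where
  lo : |δ * (√3 / 2) * G.lo - D.L| ≤ s
  hi : |δ * (√3 / 2) * G.hi - D.H| ≤ s
  w : ∀ y : ℤ, |δ * (G.w y + y / 2) - D.w (δ * (√3 / 2) * y)| ≤ s
  z : ∀ y : ℤ, |δ * (G.z y + y / 2) - D.z (δ * (√3 / 2) * y)| ≤ s

theorem hs3 {δ : ℝ} (hδ : 0 < δ) : 0 < δ * (√3 / 2) := by
  have := sq3'.1
  positivity

/-- The lattice domain at mesh `δ > 0`: a hexagon with the centre `p + i q` is on the left if
`p ≤ w q`, and on the right if `z q < p`. -/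
noncomputable def lat' (D : Dom) {δ : ℝ} (hδ : 0 < δ) : TD where
  lo := ⌊D.L / (δ * (√3 / 2))⌋
  hi := ⌈D.H / (δ * (√3 / 2))⌉
  w := fun y => ⌊D.w (δ * (√3 / 2) * y) / δ - y / 2⌋
  z := fun y => ⌊D.z (δ * (√3 / 2) * y) / δ - y / 2⌋ + 1
  lohi := by
    have h1 : (⌊D.L / (δ * (√3 / 2))⌋ : ℝ) ≤ D.L / (δ * (√3 / 2)) := Int.floor_le _
    have h2 : D.H / (δ * (√3 / 2)) ≤ (⌈D.H / (δ * (√3 / 2))⌉ : ℝ) := Int.le_ceil _
    have h3 : D.L / (δ * (√3 / 2)) < D.H / (δ * (√3 / 2)) :=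
      div_lt_div_of_pos_right D.LH (hs3 hδ)
    have : (⌊D.L / (δ * (√3 / 2))⌋ : ℝ) < (⌈D.H / (δ * (√3 / 2))⌉ : ℝ) := by linarith
    exact_mod_cast this
  lt := fun y => by
    have h : ⌊D.w (δ * (√3 / 2) * y) / δ - y / 2⌋ ≤ ⌊D.z (δ * (√3 / 2) * y) / δ - y / 2⌋ :=
      Int.floor_le_floor (sub_le_sub_right (div_le_div_of_nonneg_right (D.le _) hδ.le) _)
    omega
  bot := fun y hy => by
    have h1 : ∀ x : ℤ, x ≤ ⌊D.L / (δ * (√3 / 2))⌋ → δ * (√3 / 2) * x ≤ D.L := by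
      intro x hx
      rw [Int.le_floor, le_div_iff₀ (hs3 hδ)] at hx
      linarith
    obtain ⟨h2, h3⟩ := D.bot _ (h1 y hy)
    rw [h2, h3]
  top := fun y hy => by
    have h1 : ∀ x : ℤ, ⌈D.H / (δ * (√3 / 2))⌉ ≤ x → D.H ≤ δ * (√3 / 2) * x := by
      intro x hx
      rw [Int.ceil_le, div_le_iff₀ (hs3 hδ)] at hx
      linarith
    obtain ⟨h2, h3⟩ := D.top _ (h1 y hy)
    rw [h2, h3]
  sbot := fun y hy => by
    have h1 : ∀ x : ℤ, x ≤ ⌊D.L / (δ * (√3 / 2))⌋ → δ * (√3 / 2) * x ≤ D.L := by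
      intro x hx
      rw [Int.le_floor, le_div_iff₀ (hs3 hδ)] at hx
      linarith
    have h2 := (D.bot _ (h1 y hy.le)).1
    have h3 := (D.bot _ (h1 (y + 1) (by omega))).1
    rw [h2, h3]
    obtain ⟨X, hX⟩ : ∃ X, X = D.w D.L / δ := ⟨_, rfl⟩
    rw [← hX]
    push_cast
    have e1 : ⌊X - ((y : ℝ) + 1) / 2⌋ ≤ ⌊X - (y : ℝ) / 2⌋ := Int.floor_le_floor (by linarith)
    have e2 : ⌊X - (y : ℝ) / 2⌋ - 1 ≤ ⌊X - ((y : ℝ) + 1) / 2⌋ := by
      rw [Int.le_floor]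
      push_cast
      have := Int.floor_le (X - (y : ℝ) / 2)
      linarith
    rw [abs_le]
    omega
  stop := fun y hy => by
    have h1 : ∀ x : ℤ, ⌈D.H / (δ * (√3 / 2))⌉ ≤ x → D.H ≤ δ * (√3 / 2) * x := by
      intro x hx
      rw [Int.ceil_le, div_le_iff₀ (hs3 hδ)] at hx
      linarith
    have h2 := (D.top _ (h1 y hy)).1
    have h3 := (D.top _ (h1 (y + 1) (by omega))).1
    rw [h2, h3]
    obtain ⟨X, hX⟩ : ∃ X, X = D.w D.H / δ := ⟨_, rfl⟩
    rw [← hX]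
    push_cast
    have e1 : ⌊X - ((y : ℝ) + 1) / 2⌋ ≤ ⌊X - (y : ℝ) / 2⌋ := Int.floor_le_floor (by linarith)
    have e2 : ⌊X - (y : ℝ) / 2⌋ - 1 ≤ ⌊X - ((y : ℝ) + 1) / 2⌋ := by
      rw [Int.le_floor]
      push_cast
      have := Int.floor_le (X - (y : ℝ) / 2)
      linarith
    rw [abs_le]
    omega

/-- A dummy value. -/
def nolat : TD where
  lo := 0
  hi := 1
  w := fun _ => 0
  z := fun _ => 1
  lohi := by norm_num
  lt := fun _ => by norm_num
  bot := fun _ _ => by norm_num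
  top := fun _ _ => by norm_num
  sbot := fun _ _ => by norm_num
  stop := fun _ _ => by norm_num

open Classical in
/-- The lattice domain at mesh `δ`. -/
noncomputable def lat (D : Dom) (δ : ℝ) : TD := if h : 0 < δ then lat' D h else nolat

theorem lat_apx (D : Dom) {δ : ℝ} (hδ : 0 < δ) : Apx D δ δ (lat D δ) := by
  have e : lat D δ = lat' D hδ := by unfold lat; rw [dif_pos hδ]
  rw [e]
  have h3 := sq3'
  have hc := hs3 hδ
  have key : ∀ (x : ℝ) (y : ℤ), |δ * ((⌊x / δ - y / 2⌋ : ℝ) + y / 2) - x| ≤ δ := by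
    intro x y
    have h1 := Int.floor_le (x / δ - y / 2)
    have h2 := Int.lt_floor_add_one (x / δ - y / 2)
    have h3 : δ * (x / δ) = x := by field_simp
    rw [abs_le]
    constructor <;> nlinarith
  have key2 : ∀ (x : ℝ) (y : ℤ), |δ * ((⌊x / δ - y / 2⌋ : ℝ) + 1 + y / 2) - x| ≤ δ := by
    intro x y
    have h1 := Int.floor_le (x / δ - y / 2)
    have h2 := Int.lt_floor_add_one (x / δ - y / 2)
    have h3 : δ * (x / δ) = x := by field_simp
    rw [abs_le]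
    constructor <;> nlinarith
  obtain ⟨c, hc'⟩ : ∃ c, c = δ * (√3 / 2) := ⟨_, rfl⟩
  have hcδ : c ≤ δ := by rw [hc']; nlinarith
  have key3 : ∀ x : ℝ, |c * (⌈x / c⌉ : ℝ) - x| ≤ δ := by
    intro x
    rw [← hc'] at hc
    have h1 := Int.le_ceil (x / c)
    have h2 := Int.ceil_lt_add_one (x / c)
    have h3 : c * (x / c) = x := by field_simp
    rw [abs_le]
    constructor <;> nlinarith
  have key4 : ∀ x : ℝ, |c * (⌊x / c⌋ : ℝ) - x| ≤ δ := by
    intro x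
    rw [← hc'] at hc
    have h1 := Int.floor_le (x / c)
    have h2 := Int.lt_floor_add_one (x / c)
    have h3 : c * (x / c) = x := by field_simp
    rw [abs_le]
    constructor <;> nlinarith
  refine ⟨?_, ?_, fun y => key _ _, fun y => ?_⟩
  · have := key4 D.L
    rw [hc'] at this
    exact this
  · have := key3 D.H
    rw [hc'] at this
    exact this
  · have := key2 (D.z (δ * (√3 / 2) * y)) y
    show |δ * (((⌊D.z (δ * (√3 / 2) * y) / δ - y / 2⌋ + 1 : ℤ) : ℝ) + y / 2) -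
      D.z (δ * (√3 / 2) * y)| ≤ δ
    push_cast
    exact this

theorem Apx.mono {D : Dom} {δ s s' : ℝ} {G : TD} (h : Apx D δ s G) (hs : s ≤ s') :
    Apx D δ s' G :=
  ⟨h.lo.trans hs, h.hi.trans hs, fun y => (h.w y).trans hs, fun y => (h.z y).trans hs⟩

theorem Apx.siz {D : Dom} {δ s K : ℝ} {G : TD} (h : Apx D δ s G) (hK : D.Bd K) :
    Siz G δ (K + s) := by
  refine ⟨?_, ?_, fun y => ?_, fun y => ?_⟩
  · have := (abs_le.1 h.lo).1
    have := hK.L
    linarith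
  · have := (abs_le.1 h.hi).2
    have := hK.H
    linarith
  · have := (abs_le.1 (h.w y)).1
    have := hK.w (δ * (√3 / 2) * y)
    linarith
  · have := (abs_le.1 (h.z y)).2
    have := hK.z (δ * (√3 / 2) * y)
    linarith

theorem apx_cls {D D' : Dom} {δ s t : ℝ} {G G' : TD} (hδ : 0 < δ) (h : Apx D δ s G)
    (h' : Apx D' δ s G') (hn : Near t D D') : Cls G G' δ (4 * s + 2 * t) := by
  have h3 := sq3'
  have hc := hs3 hδ
  have hs : 0 ≤ s := (abs_nonneg _).trans h.lo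
  have ht : 0 ≤ t := (abs_nonneg _).trans hn.L
  have key : ∀ (c m m' x x' : ℝ), 0 < c → |c * m - x| ≤ s → |c * m' - x'| ≤ s → |x - x'| ≤ t →
      c * |m - m'| ≤ 2 * s + t := by
    intro c m m' x x' hc h1 h2 h3
    have e : c * |m - m'| = |c * m - c * m'| := by
      rw [← mul_sub, abs_mul, abs_of_pos hc]
    rw [e]
    rw [abs_le] at h1 h2 h3 ⊢
    constructor <;> linarith [h1.1, h1.2, h2.1, h2.2, h3.1, h3.2]
  have key2 : ∀ m m' : ℝ, δ * (√3 / 2) * |m - m'| ≤ 2 * s + t →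
      δ * |m - m'| ≤ 4 * s + 2 * t := by
    intro m m' h1
    have h2 : 0 ≤ δ * |m - m'| := by positivity
    have h4 : δ * (√3 / 2) * |m - m'| = (√3 / 2) * (δ * |m - m'|) := by ring
    rw [h4] at h1
    nlinarith
  have key3 : ∀ (u u' : ℝ) (y : ℤ), δ * |(u + y / 2) - (u' + y / 2)| ≤ 2 * s + t →
      δ * |u - u'| ≤ 4 * s + 2 * t := by
    intro u u' y h1
    rw [add_sub_add_right_eq_sub] at h1
    linarith
  exact ⟨key2 _ _ (key _ _ _ _ _ hc h.lo h'.lo hn.L), key2 _ _ (key _ _ _ _ _ hc h.hi h'.hi hn.H),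
    fun y => key3 _ _ y (key _ _ _ _ _ hδ (h.w y) (h'.w y) (hn.w _)),
    fun y => key3 _ _ y (key _ _ _ _ _ hδ (h.z y) (h'.z y) (hn.z _))⟩

/-- **Hölder continuity in the domain, uniformly in the mesh.** -/
theorem dom_lp (h10 : S_main) (h11 : S_trace) {D D' : Dom} {π : Par} {δ s t K : ℝ} {G G' : TD}
    (hδ : 0 < δ) (hK : D.Bd K) (h : Apx D δ s G) (h' : Apx D' δ s G') (hn : Near t D D') :
    dist (fl G π δ) (fl G' π δ) ≤ 32 * (K + 4) * (s + t + δ) ^ (1/3 : ℝ) := by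
  have hs : 0 ≤ s := (abs_nonneg _).trans h.lo
  have ht : 0 ≤ t := (abs_nonneg _).trans hn.L
  have hK0 : 0 < K := by
    have := hK.L
    have := hK.H
    have := D.LH
    linarith
  have hp : 0 < s + t + δ := by positivity
  by_cases h1 : 1 < s + t
  · refine (lp_le_one _ _).trans ?_
    have : 1 ≤ (s + t + δ) ^ (1/3 : ℝ) := Real.one_le_rpow (by linarith) (by norm_num)
    nlinarith
  push Not at h1
  have g1 : Siz G δ (K + s + t) := by
    have := h.siz hK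
    exact ⟨by linarith [this.lo], by linarith [this.hi], fun y => by linarith [this.w y],
      fun y => by linarith [this.z y]⟩
  have g2 : Siz G' δ (K + s + t) := by
    have := h'.siz (hn.bd hK)
    exact ⟨by linarith [this.lo], by linarith [this.hi], fun y => by linarith [this.w y],
      fun y => by linarith [this.z y]⟩
  have g3 := close_lp (π := π) h10 h11 g1 g2 hδ (apx_cls hδ h h' hn)
  refine g3.trans ?_
  have g4 : (4 * s + 2 * t + δ) ^ (1/3 : ℝ) ≤ 2 * (s + t + δ) ^ (1/3 : ℝ) := by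
    calc (4 * s + 2 * t + δ) ^ (1/3 : ℝ) ≤ (8 * (s + t + δ)) ^ (1/3 : ℝ) :=
          Real.rpow_le_rpow (by positivity) (by linarith) (by norm_num)
      _ = 8 ^ (1/3 : ℝ) * (s + t + δ) ^ (1/3 : ℝ) := Real.mul_rpow (by norm_num) hp.le
      _ = 2 * (s + t + δ) ^ (1/3 : ℝ) := by
          congr 1
          rw [show (8:ℝ) = 2 ^ (3:ℝ) by norm_num, ← Real.rpow_mul (by norm_num)]
          norm_num
  calc 16 * (K + s + t + 3) * (4 * s + 2 * t + δ) ^ (1/3 : ℝ)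
      ≤ 16 * (K + 4) * (2 * (s + t + δ) ^ (1/3 : ℝ)) :=
        mul_le_mul (by linarith) g4 (by positivity) (by positivity)
    _ = 32 * (K + 4) * (s + t + δ) ^ (1/3 : ℝ) := by ring

/-- Approximations at neighbouring meshes. -/
theorem apx_mesh (D : Dom) {ε : ℝ} (hε : 0 < ε) : ∃ ρ : ℝ, 0 < ρ ∧ ρ ≤ 1/2 ∧
    ∀ (δ δ' : ℝ) (G : TD), 0 < δ → 0 < δ' → |δ - δ'| ≤ ρ * δ' → Apx D δ ρ G → Apx D δ' ε G := by
  obtain ⟨K, hK, hB⟩ := D.exists_bd
  obtain ⟨ρ, hρ, hρ1, hd⟩ := D.dil_mod (show 0 < ε / 3 by positivity)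
  obtain ⟨r, hr⟩ : ∃ r, r = min (ρ / 2) (min (ε / 6) (ε / (6 * K))) := ⟨_, rfl⟩
  have r1 : r ≤ ρ / 2 := by rw [hr]; exact min_le_left _ _
  have r2 : r ≤ ε / 6 := by rw [hr]; exact (min_le_right _ _).trans (min_le_left _ _)
  have r3 : r ≤ ε / (6 * K) := by rw [hr]; exact (min_le_right _ _).trans (min_le_right _ _)
  have r0 : 0 < r := by
    rw [hr]
    exact lt_min (by positivity) (lt_min (by positivity) (by positivity))
  refine ⟨r, r0, by linarith, ?_⟩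
  intro δ δ' G hδ hδ' hm hA
  have m1 : |δ - δ'| ≤ δ' / 4 := by
    refine hm.trans ?_
    nlinarith
  have m2 := abs_le.1 m1
  have q1 : |δ' / δ - 1| ≤ 2 * r := by
    have e : δ' / δ - 1 = (δ' - δ) / δ := by field_simp
    rw [e, abs_div, abs_of_pos hδ, abs_sub_comm, div_le_iff₀ hδ]
    nlinarith
  have q2 : δ' / δ ≤ 2 := by
    rw [div_le_iff₀ hδ]
    linarith
  have q3 : 0 < δ' / δ := by positivity
  have hcK : 2 * r * K ≤ ε / 3 := by
    have : r * K ≤ ε / 6 := by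
      calc r * K ≤ ε / (6 * K) * K := mul_le_mul_of_nonneg_right r3 hK.le
        _ = ε / 6 := by field_simp
    linarith
  have key : ∀ (m x x' : ℝ), |δ * m - x| ≤ r → |x| ≤ K → |x - x'| ≤ ε / 3 →
      |δ' * m - x'| ≤ ε := by
    intro m x x' h1 h2 h3
    have e : δ' * m - x' = δ' / δ * (δ * m - x) + (δ' / δ - 1) * x + (x - x') := by
      field_simp
      ring
    rw [e]
    have a1 : |δ' / δ * (δ * m - x)| ≤ 2 * r := by
      rw [abs_mul, abs_of_pos q3]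
      exact mul_le_mul q2 h1 (abs_nonneg _) (by norm_num)
    have a2 : |(δ' / δ - 1) * x| ≤ 2 * r * K := by
      rw [abs_mul]
      exact mul_le_mul q1 h2 (abs_nonneg _) (by positivity)
    have a3 := abs_add_three (δ' / δ * (δ * m - x)) ((δ' / δ - 1) * x) (x - x')
    linarith
  have bL : |D.L| ≤ K := abs_le.2 ⟨hB.L, D.LH.le.trans hB.H⟩
  have bH : |D.H| ≤ K := abs_le.2 ⟨hB.L.trans D.LH.le, hB.H⟩
  have bw : ∀ y, |D.w y| ≤ K := fun y => abs_le.2 ⟨hB.w y, (D.le y).trans (hB.z y)⟩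
  have bz : ∀ y, |D.z y| ≤ K := fun y => abs_le.2 ⟨(hB.w y).trans (D.le y), hB.z y⟩
  have hdy : ∀ y : ℤ, |D.w (δ * (√3 / 2) * y) - D.w (δ' * (√3 / 2) * y)| ≤ ε / 3 ∧
      |D.z (δ * (√3 / 2) * y) - D.z (δ' * (√3 / 2) * y)| ≤ ε / 3 := by
    intro y
    have e : δ / δ' * (δ' * (√3 / 2) * y) = δ * (√3 / 2) * y := by field_simp
    have h1 := hd (δ / δ') (by
      have e2 : δ / δ' - 1 = (δ - δ') / δ' := by field_simp
      rw [e2, abs_div, abs_of_pos hδ', div_le_iff₀ hδ']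
      nlinarith) (δ' * (√3 / 2) * y)
    rw [e] at h1
    exact h1
  have hlo := hA.lo
  have hhi := hA.hi
  rw [mul_assoc] at hlo hhi
  refine ⟨?_, ?_, fun y => key _ _ _ (hA.w y) (bw _)
    (hdy y).1, fun y => key _ _ _ (hA.z y) (bz _) (hdy y).2⟩
  · rw [mul_assoc]
    refine key _ _ _ hlo bL ?_
    rw [sub_self, abs_zero]; positivity
  · rw [mul_assoc]
    refine key _ _ _ hhi bH ?_
    rw [sub_self, abs_zero]; positivity

/-- **Joint continuity in the domain, the mesh and the approximation.** -/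
theorem joint (h10 : S_main) (h11 : S_trace) (D : Dom) {ε : ℝ} (hε : 0 < ε) :
    ∃ ρ : ℝ, 0 < ρ ∧ ∀ (π : Par) (D' : Dom) (δ δ' : ℝ) (G G' : TD), Near ρ D D' → 0 < δ → 0 < δ' →
      δ' ≤ ρ → |δ - δ'| ≤ ρ * δ' → Apx D δ ρ G → Apx D' δ' ρ G' →
      dist (fl G π δ) (fl G' π δ') ≤ ε := by
  obtain ⟨K, hK, hB⟩ := D.exists_bd
  obtain ⟨η, hη, hp⟩ := small_pow (C := 32 * (K + 4)) (ε := ε / 2) (by positivity) (by positivity)
  obtain ⟨e0, he0⟩ : ∃ e0, e0 = min (η / 3) (1/2) := ⟨_, rfl⟩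
  have e00 : 0 < e0 := by rw [he0]; exact lt_min (by positivity) (by norm_num)
  have e01 : e0 ≤ η / 3 := by rw [he0]; exact min_le_left _ _
  have e02 : e0 ≤ 1/2 := by rw [he0]; exact min_le_right _ _
  obtain ⟨r, hr, hr1, ha⟩ := apx_mesh D e00
  obtain ⟨ρ, hρ⟩ : ∃ ρ, ρ = min (min r e0) (ε / (4 * K + 12)) := ⟨_, rfl⟩
  have ρ1 : ρ ≤ r := by rw [hρ]; exact (min_le_left _ _).trans (min_le_left _ _)
  have ρ2 : ρ ≤ e0 := by rw [hρ]; exact (min_le_left _ _).trans (min_le_right _ _)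
  have ρ3 : ρ ≤ ε / (4 * K + 12) := by rw [hρ]; exact min_le_right _ _
  have ρ0 : 0 < ρ := by rw [hρ]; exact lt_min (lt_min hr e00) (by positivity)
  refine ⟨ρ, ρ0, ?_⟩
  intro π D' δ δ' G G' hn hδ hδ' hd hm hA hA'
  have hm' : |δ - δ'| ≤ r * δ' := hm.trans (mul_le_mul_of_nonneg_right ρ1 hδ'.le)
  have hA2 := ha δ δ' G hδ hδ' hm' (hA.mono ρ1)
  have s1 := dom_lp (π := π) h10 h11 hδ' hB hA2 (hA'.mono ρ2) hn
  have s2 : 32 * (K + 4) * (e0 + ρ + δ') ^ (1/3 : ℝ) ≤ ε / 2 :=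
    hp _ (by positivity) (by linarith)
  have s3 := mesh_lp (π := π) (δ := δ) hδ' (hA2.siz hB)
  have s4 : |δ - δ'| / δ' * (2 * (K + e0) + 4 * δ') ≤ ε / 2 := by
    have t1 : |δ - δ'| / δ' ≤ ρ := by
      rw [div_le_iff₀ hδ']
      exact hm
    have t2 : 2 * (K + e0) + 4 * δ' ≤ 2 * K + 6 := by linarith
    calc |δ - δ'| / δ' * (2 * (K + e0) + 4 * δ') ≤ ε / (4 * K + 12) * (2 * K + 6) :=
          mul_le_mul (t1.trans ρ3) t2 (by positivity) (by positivity)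
      _ = ε / 2 := by field_simp; ring
  have s5 := dist_triangle (fl G π δ) (fl G π δ') (fl G' π δ')
  linarith

end Pool.Agent.H950.ON
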