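import Pool.Agent.H950.ON.Dom

/-!
Families of limits, scaling, limit points.
-/

set_option autoImplicit false

namespace Pool.Agent.H950.ON

open Pool.Agent.X136.ON MeasureTheory TopologicalSpace Filter Topology Finset
open Pool.Agent.H950.FK (NC Yn lp_le_one tendsto_iff Dom Near small_pow Fam dich dil dil_cont
  seq_bdd dense_dom)
open Pool.Agent.H950.EX (Cpt Slow clu_iff clu_compact clu_conn)

/-- The law at mesh `δ` of the path in `D`. -/
noncomputable def fD (π : Par) (D : Dom) (δ : ℝ) : Yn := fl (lat D δ) π δ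

theorem cptD (π : Par) (D : Dom) : Cpt (fD π D) := by
  intro δ h0 h1
  obtain ⟨K, hK, hB⟩ := D.exists_bd
  obtain ⟨M, hM, hM'⟩ := seq_bdd h1
  obtain ⟨φ, hφ, y, hy⟩ := precompact (D := fun i => lat D (δ i)) (π := π)
    (K := fun i F => trace (δ i) (lat D (δ i)).a ((lat D (δ i)).om F))
    (ProperSpace.isCompact_closedBall (0:ℂ) (2 * (K + M) + 4 * M)) (fun i F hF z hz => by
      have h2 := trace_ball (h0 i) ((lat_apx D (h0 i)).siz hB) hz
      rw [mem_closedBall_zero_iff]
      have := hM' i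
      linarith)
  exact ⟨φ, hφ, y, hy⟩

theorem famD (h10 : S_main) (h11 : S_trace) (π : Par) : Fam Near (fD π) where
  cpt := cptD π
  refl := fun D ρ hρ => FK.Near.refl D hρ.le
  apx := fun D ε hε => by
    obtain ⟨ρ, hρ, h⟩ := joint h10 h11 D hε
    refine ⟨min (ρ / 2) 1, lt_min (by positivity) one_pos, ?_⟩
    intro D' δ δ' hn hδ hδ' hd hm
    have r1 : min (ρ / 2) 1 ≤ ρ / 2 := min_le_left _ _
    have r2 : min (ρ / 2) 1 ≤ 1 := min_le_right _ _
    have hδρ : δ ≤ ρ := by
      have := (abs_le.1 hm).2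
      nlinarith
    exact h π D' δ δ' _ _ (hn.mono (by linarith)) hδ hδ' (by linarith)
      (hm.trans (mul_le_mul_of_nonneg_right (by linarith) hδ'.le)) ((lat_apx D hδ).mono hδρ)
      ((lat_apx D' hδ').mono (by linarith))
  dense := dense_dom

/-! ### Scaling -/

theorem scale_lat {c : ℝ} (hc : 0 < c) (D : Dom) {δ : ℝ} (hδ : 0 < δ) :
    lat (D.scale c hc) (c * δ) = lat D δ := by
  have hcδ : 0 < c * δ := by positivity
  have h3 : (√3 / 2 : ℝ) ≠ 0 := by have := sq3'.1; positivity
  unfold lat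
  rw [dif_pos hδ, dif_pos hcδ]
  unfold lat' FK.Dom.scale
  simp only [TD.mk.injEq]
  have e1 : ∀ x, c * x / (c * δ) = x / δ := fun x => mul_div_mul_left _ _ hc.ne'
  have e3 : ∀ x, c * x / (c * δ * (√3 / 2)) = x / (δ * (√3 / 2)) := fun x => by
    rw [mul_assoc, mul_div_mul_left _ _ hc.ne']
  have e2 : ∀ y : ℤ, c * δ * (√3 / 2) * y / c = δ * (√3 / 2) * y := fun y => by field_simp
  refine ⟨by rw [e3], by rw [e3], ?_, ?_⟩
  · funext y; rw [e1, e2]
  · funext y; rw [e1, e2]

/-- **Scaling of the limit.** -/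
theorem lim_scale {π : Par} {c : ℝ} (hc : 0 < c) {D : Dom} {μ : ProbabilityMeasure NC}
    (h : Tendsto (fun δ => (lat D δ).law π δ) (𝓝[>] 0) (𝓝 μ)) :
    Tendsto (fun δ => (lat (D.scale c hc) δ).law π δ) (𝓝[>] 0)
      (𝓝 (μ.map (dil_cont c).measurable.aemeasurable)) := by
  have h1 : Tendsto (fun δ : ℝ => δ / c) (𝓝[>] 0) (𝓝[>] 0) := by
    rw [tendsto_nhdsWithin_iff]
    constructor
    · have : Tendsto (fun δ : ℝ => δ / c) (𝓝[>] 0) (𝓝 (0 / c)) :=
        (tendsto_id.div_const c).mono_left nhdsWithin_le_nhds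
      rwa [zero_div] at this
    · filter_upwards [self_mem_nhdsWithin] with x hx
      exact div_pos hx hc
  have h2 := ProbabilityMeasure.tendsto_map_of_tendsto_of_continuous _ μ (h.comp h1) (dil_cont c)
  refine h2.congr' ?_
  filter_upwards [self_mem_nhdsWithin] with δ hδ
  have hδ' : 0 < δ / c := div_pos hδ hc
  simp only [Function.comp_apply]
  rw [← law_scale, ← scale_lat hc D hδ', mul_div_cancel₀ δ hc.ne']

/-! ### Limit points -/

/-- The limit points of the laws as the mesh tends to `0`. -/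
def LimPts (π : Par) (D : Dom) : Set (ProbabilityMeasure NC) :=
  {μ | MapClusterPt μ (𝓝[>] (0:ℝ)) (fun δ => (lat D δ).law π δ)}

theorem limPts_eq (π : Par) (D : Dom) : LimPts π D = LevyProkhorov.toMeasure ''
    {y : Yn | MapClusterPt y (𝓝[>] (0:ℝ)) (fD π D)} := by
  ext μ
  constructor
  · intro h
    refine ⟨LevyProkhorov.ofMeasure μ, ?_, rfl⟩
    exact MapClusterPt.continuousAt_comp
      LevyProkhorov.continuous_ofMeasure_probabilityMeasure.continuousAt h
  · rintro ⟨y, hy, rfl⟩
    exact MapClusterPt.continuousAt_comp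
      LevyProkhorov.continuous_toMeasure_probabilityMeasure.continuousAt hy

theorem limPts_compact (π : Par) (D : Dom) : IsCompact (LimPts π D) := by
  rw [limPts_eq]
  exact (clu_compact (cptD π D)).image LevyProkhorov.continuous_toMeasure_probabilityMeasure

theorem limPts_conn (h10 : S_main) (h11 : S_trace) (π : Par) (D : Dom) :
    IsConnected (LimPts π D) := by
  rw [limPts_eq]
  exact (clu_conn (cptD π D) ((famD h10 h11 π).slow D)).image _
    LevyProkhorov.continuous_toMeasure_probabilityMeasure.continuousOn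

theorem limPts_dich (h10 : S_main) (h11 : S_trace) (π : Par) (D : Dom)
    (h : (LimPts π D).Countable) :
    ∃ μ, Tendsto (fun δ => (lat D δ).law π δ) (𝓝[>] 0) (𝓝 μ) := by
  have h1 : {y : Yn | MapClusterPt y (𝓝[>] (0:ℝ)) (fD π D)}.Countable := by
    rw [limPts_eq] at h
    exact Set.countable_of_injective_of_countable_image
      (LevyProkhorov.toMeasure_injective.injOn) h
  obtain ⟨y, hy⟩ := dich (cptD π D) ((famD h10 h11 π).slow D) h1
  exact ⟨y.toMeasure, (LevyProkhorov.continuous_toMeasure_probabilityMeasure.tendsto _).comp hy⟩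

end Pool.Agent.H950.ON
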