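import Pool.Agent.H950.ON.Law
import Pool.Agent.H950.FK.Pair

/-!
The distance of the laws of two lattice domains.
-/

set_option autoImplicit false

namespace Pool.Agent.H950.ON

open Pool.Agent.X136.ON MeasureTheory TopologicalSpace Filter Topology Finset
open Pool.Agent.H950.FK (NC Yn lp_le_one tendsto_iff cube le_cube)

/-- The law at mesh `δ`, in the Lévy-Prokhorov space. -/
noncomputable def fl (G : TD) (π : Par) (δ : ℝ) : Yn := LevyProkhorov.ofMeasure (G.law π δ)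

/-- The size of a lattice domain. -/
structure Siz (G : TD) (δ K : ℝ) : Prop where
  lo : -K ≤ δ * (√3 / 2) * G.lo
  hi : δ * (√3 / 2) * G.hi ≤ K
  w : ∀ y : ℤ, -K ≤ δ * (G.w y + y / 2)
  z : ∀ y : ℤ, δ * (G.z y + y / 2) ≤ K

theorem sq3 : 1 < √3 ∧ √3 < 2 := by
  constructor
  · rw [Real.lt_sqrt (by norm_num)]; norm_num
  · rw [Real.sqrt_lt' (by norm_num)]; norm_num

theorem sq3' : 3/4 < √3 / 2 ∧ √3 / 2 < 1 := by
  constructor
  · have : (3/2 : ℝ) < √3 := by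
      rw [Real.lt_sqrt (by norm_num)]; norm_num
    linarith
  · linarith [sq3.2]

theorem Siz.pos {G : TD} {δ K : ℝ} (h : Siz G δ K) (hδ : 0 < δ) : 0 < K := by
  have h1 : (G.lo : ℝ) < G.hi := by exact_mod_cast G.lohi
  have h2 := h.lo
  have h3 := h.hi
  have h4 : 0 < δ * (√3 / 2) := by
    have := sq3'.1
    positivity
  nlinarith

theorem Siz.row {G : TD} {δ K : ℝ} (h : Siz G δ K) (hδ : 0 < δ) :
    -(2 * K) ≤ δ * G.lo ∧ δ * G.hi ≤ 2 * K := by
  have hK := h.pos hδ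
  have h2 := h.lo
  have h3 := h.hi
  have h4 := sq3'
  obtain ⟨t, ht⟩ : ∃ t, t = √3 / 2 := ⟨_, rfl⟩
  rw [← ht] at h2 h3 h4
  constructor
  · by_contra hc
    push Not at hc
    have : δ * t * G.lo < -K := by
      calc δ * t * G.lo = t * (δ * G.lo) := by ring
        _ < t * (-(2 * K)) := mul_lt_mul_of_pos_left hc (by linarith)
        _ ≤ -K := by nlinarith
    linarith
  · by_contra hc
    push Not at hc
    have : K < δ * t * G.hi := by
      calc K ≤ t * (2 * K) := by nlinarith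
        _ < t * (δ * G.hi) := mul_lt_mul_of_pos_left hc (by linarith)
        _ = δ * t * G.hi := by ring
    linarith

theorem pair (h10 : S_main) (h11 : S_trace) {M G : TD} {π : Par} {v : ℤ × ℤ} {δ K s : ℝ}
    (h1 : M.Le G) (h2 : G.Le (M.shift v)) (hM : Siz M δ K) (hG : Siz G δ K) (hδ : 0 < δ)
    (hs : 0 ≤ s) (hv : δ * (|(v.1 : ℝ)| + |(v.2 : ℝ)|) ≤ s)
    (hhi : δ * |(M.hi : ℝ) - G.hi| ≤ s) (hlo : δ * |(M.lo : ℝ) - G.lo| ≤ s) :
    dist (fl M π δ) (fl G π δ) ≤ 8 * (K + 3) * (s + δ) ^ (1/3 : ℝ) := by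
  have hK := hM.pos hδ
  obtain ⟨u, hu⟩ : ∃ u, u = s + δ := ⟨_, rfl⟩
  have hu0 : 0 < u := by rw [hu]; positivity
  rw [← hu]
  by_cases hu1 : 1 ≤ u
  · refine (lp_le_one _ _).trans ?_
    have : 1 ≤ u ^ (1/3 : ℝ) := Real.one_le_rpow hu1 (by norm_num)
    nlinarith
  push Not at hu1
  obtain ⟨ρ, hρ⟩ : ∃ ρ, ρ = u ^ (1/3 : ℝ) := ⟨_, rfl⟩
  rw [← hρ]
  have hρ0 : 0 < ρ := by rw [hρ]; positivity
  have hρ3 : ρ ^ 3 = u := by rw [hρ]; exact cube hu0
  have huρ : u ≤ ρ := by rw [hρ]; exact le_cube hu0 hu1.le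
  have hρ1 : ρ ≤ 1 := by rw [hρ]; exact Real.rpow_le_one hu0.le hu1.le (by norm_num)
  have hδρ : δ ≤ ρ := by linarith
  obtain ⟨r, hr⟩ : ∃ r : ℤ, r = ⌈ρ / δ⌉ := ⟨_, rfl⟩
  have hr0 : 0 < ρ / δ := by positivity
  have hr1 : 1 ≤ r := by rw [hr]; exact Int.one_le_ceil_iff.2 hr0
  have hr2 : ρ ≤ δ * r := by
    have := Int.le_ceil (ρ / δ)
    rw [← hr, div_le_iff₀ hδ] at this
    linarith
  have hr3 : δ * r ≤ 2 * ρ := by
    have h := Int.ceil_lt_add_one (ρ / δ)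
    rw [← hr] at h
    have h' : δ * r ≤ δ * (ρ / δ + 1) := mul_le_mul_of_nonneg_left h.le hδ.le
    have e : δ * (ρ / δ + 1) = ρ + δ := by field_simp
    linarith
  obtain ⟨a, ha⟩ : ∃ a : ℤ, a = ⌈-(2 * K) / δ⌉ := ⟨_, rfl⟩
  obtain ⟨b, hb⟩ : ∃ b : ℤ, b = ⌊2 * K / δ⌋ := ⟨_, rfl⟩
  have low : ∀ x : ℤ, -(2 * K) ≤ δ * x → a ≤ x := by
    intro x hx
    rw [ha, Int.ceil_le, div_le_iff₀ hδ]
    linarith
  have upp : ∀ x : ℤ, δ * x ≤ 2 * K → x ≤ b := by
    intro x hx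
    rw [hb, Int.le_floor, le_div_iff₀ hδ]
    linarith
  have ha' : -(2 * K) ≤ δ * a := by
    have := Int.le_ceil (-(2 * K) / δ)
    rw [← ha, div_le_iff₀ hδ] at this
    linarith
  have hb' : δ * b ≤ 2 * K := by
    have := Int.floor_le (2 * K / δ)
    rw [← hb, le_div_iff₀ hδ] at this
    linarith
  have rows : ∀ y : ℤ, a ≤ y → y ≤ b → -(2 * K) ≤ δ * y ∧ δ * y ≤ 2 * K := by
    intro y h3 h4
    have h3' : (a : ℝ) ≤ y := by exact_mod_cast h3
    have h4' : (y : ℝ) ≤ b := by exact_mod_cast h4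
    constructor
    · exact ha'.trans (mul_le_mul_of_nonneg_left h3' hδ.le)
    · exact (mul_le_mul_of_nonneg_left h4' hδ.le).trans hb'
  obtain ⟨κ, hκ, hκb⟩ := h10 M G v π.n π.x π.hn π.hx π.hnx h1 h2 a b a b r
    (fun y h3 h4 => low _ (by
      have h5 := rows y h3 h4
      have h6 := hM.w y
      nlinarith))
    (fun y h3 h4 => upp _ (by
      have h5 := rows y h3 h4
      have h6 := hG.z y
      nlinarith)) (low _ (hM.row hδ).1) (low _ (hG.row hδ).1) (upp _ (hM.row hδ).2)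
    (upp _ (hG.row hδ).2) hr1
  obtain ⟨m, hm⟩ : ∃ m, m = 2 * r + 3 + |M.hi - G.hi| + |M.lo - G.lo| := ⟨_, rfl⟩
  rw [← hm] at hκb
  have hm0 : 0 ≤ m := by rw [hm]; positivity
  have hδm : δ * (2 * m + 4) ≤ 18 * ρ := by
    have e : (m : ℝ) = 2 * r + 3 + |(M.hi : ℝ) - G.hi| + |(M.lo : ℝ) - G.lo| := by
      rw [hm]; push_cast; rfl
    rw [e]
    nlinarith
  have hb0 : Kp M G κ (Bad M G m) ≤ (8 * K + 6) * ρ := by
    refine hκb.trans ?_
    have hr' : (0:ℝ) < r := by exact_mod_cast (by omega : 0 < r)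
    rw [div_le_iff₀ (by positivity)]
    have e1 : 2 * (|(v.1 : ℝ)| * (b - a + r + 1) + |(v.2 : ℝ)| * (b - a + r + 1)) =
        2 * ((|(v.1 : ℝ)| + |(v.2 : ℝ)|) * (b - a + r + 1)) := by ring
    rw [e1]
    have e2 : δ * (b - a + r + 1) ≤ 4 * K + 3 := by nlinarith
    have e3 : 0 ≤ |(v.1 : ℝ)| + |(v.2 : ℝ)| := by positivity
    have e4 : δ ^ 2 * (2 * ((|(v.1 : ℝ)| + |(v.2 : ℝ)|) * (b - a + r + 1))) ≤
        δ ^ 2 * ((8 * K + 6) * ρ * r ^ 2) := by
      have f1 : δ ^ 2 * (2 * ((|(v.1 : ℝ)| + |(v.2 : ℝ)|) * (b - a + r + 1))) =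
          2 * ((δ * (|(v.1 : ℝ)| + |(v.2 : ℝ)|)) * (δ * (b - a + r + 1))) := by ring
      rw [f1]
      have f2 : (δ * (|(v.1 : ℝ)| + |(v.2 : ℝ)|)) * (δ * (b - a + r + 1)) ≤ s * (4 * K + 3) := by
        by_cases h0 : 0 ≤ δ * ((b:ℝ) - a + r + 1)
        · exact mul_le_mul hv e2 h0 hs
        · push Not at h0
          have g1 : (δ * (|(v.1 : ℝ)| + |(v.2 : ℝ)|)) * (δ * (b - a + r + 1)) ≤ 0 :=
            mul_nonpos_of_nonneg_of_nonpos (by positivity) h0.le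
          have g2 : 0 ≤ s * (4 * K + 3) := by positivity
          linarith
      have f3 : s ≤ ρ ^ 3 := by rw [hρ3]; linarith
      have f4 : ρ ^ 3 ≤ ρ * (δ * r) ^ 2 := by
        have g1 : ρ ^ 2 ≤ (δ * r) ^ 2 := pow_le_pow_left₀ hρ0.le hr2 2
        calc ρ ^ 3 = ρ * ρ ^ 2 := by ring
          _ ≤ ρ * (δ * r) ^ 2 := mul_le_mul_of_nonneg_left g1 hρ0.le
      have f5 : s * (4 * K + 3) ≤ ρ * (δ * r) ^ 2 * (4 * K + 3) :=
        mul_le_mul_of_nonneg_right (f3.trans f4) (by positivity)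
      calc 2 * ((δ * (|(v.1 : ℝ)| + |(v.2 : ℝ)|)) * (δ * (b - a + r + 1)))
          ≤ 2 * (ρ * (δ * r) ^ 2 * (4 * K + 3)) := by linarith
        _ = δ ^ 2 * ((8 * K + 6) * ρ * r ^ 2) := by ring
    exact le_of_mul_le_mul_left e4 (by positivity)
  apply lp_of hκ (by positivity)
  refine le_trans ?_ (hb0.trans (by nlinarith))
  classical
  unfold Kp
  apply Finset.sum_le_sum
  intro F hF
  apply Finset.sum_le_sum
  intro F' hF'
  have hk := hκ.nn F F'
  by_cases hbad : Bad M G m F F'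
  · rw [if_pos hbad]
    split_ifs <;> linarith
  · rw [if_neg hbad, if_neg]
    rw [not_not]
    refine (h11 M G F (Finset.mem_powerset.1 hF) F' (Finset.mem_powerset.1 hF') m δ hm0 hδ
      hbad).trans (hδm.trans ?_)
    nlinarith

/-! ### The lower bound of two domains -/

/-- The largest domain below both. -/
def inf (D D' : TD) : TD where
  lo := min D.lo D'.lo
  hi := max D.hi D'.hi
  w := fun y => min (D.w y) (D'.w y)
  z := fun y => min (D.z y) (D'.z y)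
  lohi := by
    have := D.lohi
    omega
  lt := fun y => by
    have := D.lt y
    have := D'.lt y
    omega
  bot := fun y hy => by
    have h1 := D.bot y (by omega)
    have h2 := D'.bot y (by omega)
    omega
  top := fun y hy => by
    have h1 := D.top y (by omega)
    have h2 := D'.top y (by omega)
    omega
  sbot := fun y hy => by
    have h1 := abs_le.1 (D.sbot y (by omega))
    have h2 := abs_le.1 (D'.sbot y (by omega))
    rw [abs_le]
    omega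
  stop := fun y hy => by
    have h1 := abs_le.1 (D.stop y (by omega))
    have h2 := abs_le.1 (D'.stop y (by omega))
    rw [abs_le]
    omega

/-- Two lattice domains at mesh `δ` are within `s` of each other. -/
structure Cls (G G' : TD) (δ s : ℝ) : Prop where
  lo : δ * |(G.lo : ℝ) - G'.lo| ≤ s
  hi : δ * |(G.hi : ℝ) - G'.hi| ≤ s
  w : ∀ y, δ * |(G.w y : ℝ) - G'.w y| ≤ s
  z : ∀ y, δ * |(G.z y : ℝ) - G'.z y| ≤ s

theorem Cls.symm {G G' : TD} {δ s : ℝ} (h : Cls G G' δ s) : Cls G' G δ s := by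
  obtain ⟨h1, h2, h3, h4⟩ := h
  exact ⟨by rwa [abs_sub_comm], by rwa [abs_sub_comm], fun y => by rw [abs_sub_comm]; exact h3 y,
    fun y => by rw [abs_sub_comm]; exact h4 y⟩

theorem inf_half (h10 : S_main) (h11 : S_trace) {G G' : TD} {π : Par} {δ K s : ℝ}
    (hG : Siz G δ K) (hG' : Siz G' δ K) (hδ : 0 < δ) (hc : Cls G G' δ s) (hs : 0 ≤ s) {M : TD}
    (hM : M = inf G G') : dist (fl M π δ) (fl G π δ) ≤ 8 * (K + 3) * (s + δ) ^ (1/3 : ℝ) := by
  obtain ⟨t, ht⟩ : ∃ t : ℤ, t = ⌊s / δ⌋ := ⟨_, rfl⟩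
  have ht0 : 0 ≤ t := by rw [ht]; exact Int.floor_nonneg.2 (by positivity)
  have ht1 : δ * t ≤ s := by
    have := Int.floor_le (s / δ)
    rw [← ht, le_div_iff₀ hδ] at this
    linarith
  have htt : ∀ x : ℤ, δ * |(x : ℝ)| ≤ s → |x| ≤ t := by
    intro x hx
    rw [ht, Int.le_floor, le_div_iff₀ hδ]
    push_cast
    linarith
  apply pair h10 h11 (v := (t, 0)) (M := M) (G := G) _ _ _ hG hδ hs _ _ _
  · rw [hM]
    exact ⟨fun y => min_le_left _ _, fun y => min_le_left _ _⟩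
  · rw [hM]
    refine ⟨fun y => ?_, fun y => ?_⟩
    · show G.w y ≤ min (G.w (y - 0)) (G'.w (y - 0)) + t
      have h := htt (G.w y - G'.w y) (by have := hc.w y; push_cast; exact this)
      rw [abs_le] at h
      rw [sub_zero]
      omega
    · show G.z y ≤ min (G.z (y - 0)) (G'.z (y - 0)) + t
      have h := htt (G.z y - G'.z y) (by have := hc.z y; push_cast; exact this)
      rw [abs_le] at h
      rw [sub_zero]
      omega
  · rw [hM]
    refine ⟨?_, ?_, fun y => ?_, fun y => ?_⟩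
    · show -K ≤ δ * (√3 / 2) * ((min G.lo G'.lo : ℤ) : ℝ)
      rcases min_choice G.lo G'.lo with h | h <;> rw [h]
      exacts [hG.lo, hG'.lo]
    · show δ * (√3 / 2) * ((max G.hi G'.hi : ℤ) : ℝ) ≤ K
      rcases max_choice G.hi G'.hi with h | h <;> rw [h]
      exacts [hG.hi, hG'.hi]
    · show -K ≤ δ * (((min (G.w y) (G'.w y) : ℤ) : ℝ) + y / 2)
      rcases min_choice (G.w y) (G'.w y) with h | h <;> rw [h]
      exacts [hG.w y, hG'.w y]
    · show δ * (((min (G.z y) (G'.z y) : ℤ) : ℝ) + y / 2) ≤ K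
      rcases min_choice (G.z y) (G'.z y) with h | h <;> rw [h]
      exacts [hG.z y, hG'.z y]
  · show δ * (|(t : ℝ)| + |((0 : ℤ) : ℝ)|) ≤ s
    rw [abs_of_nonneg (by exact_mod_cast ht0 : (0:ℝ) ≤ t)]
    simpa using ht1
  · rw [hM]
    show δ * |((max G.hi G'.hi : ℤ) : ℝ) - G.hi| ≤ s
    rcases max_choice G.hi G'.hi with h | h <;> rw [h]
    · rw [sub_self, abs_zero, mul_zero]; exact hs
    · rw [abs_sub_comm]; exact hc.hi
  · rw [hM]
    show δ * |((min G.lo G'.lo : ℤ) : ℝ) - G.lo| ≤ s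
    rcases min_choice G.lo G'.lo with h | h <;> rw [h]
    · rw [sub_self, abs_zero, mul_zero]; exact hs
    · rw [abs_sub_comm]; exact hc.lo

theorem inf_comm (G G' : TD) : inf G G' = inf G' G := by
  unfold inf
  simp only [TD.mk.injEq]
  refine ⟨min_comm _ _, max_comm _ _, ?_, ?_⟩
  · funext y; exact min_comm _ _
  · funext y; exact min_comm _ _

/-- **The laws of two close lattice domains.** -/
theorem close_lp (h10 : S_main) (h11 : S_trace) {G G' : TD} {π : Par} {δ K s : ℝ}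
    (hG : Siz G δ K) (hG' : Siz G' δ K) (hδ : 0 < δ) (hc : Cls G G' δ s) :
    dist (fl G π δ) (fl G' π δ) ≤ 16 * (K + 3) * (s + δ) ^ (1/3 : ℝ) := by
  have hs : 0 ≤ s := le_trans (by positivity) hc.lo
  have e1 := inf_half (π := π) h10 h11 hG hG' hδ hc hs rfl
  have e2 := inf_half (π := π) h10 h11 hG' hG hδ hc.symm hs (inf_comm G G')
  have e3 := dist_triangle_left (fl G π δ) (fl G' π δ) (fl (inf G G') π δ)
  linarith

end Pool.Agent.H950.ON
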