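import Pool.Agent.H950.ON.Pair
import Pool.Agent.H950.FK.Tr

/-!
The trace of the path: position, mesh change, scaling.
-/

set_option autoImplicit false

namespace Pool.Agent.H950.ON

open Pool.Agent.X136.ON MeasureTheory TopologicalSpace Filter Topology Finset
open Pool.Agent.H950.FK (NC Yn lp_le_one tendsto_iff dil mem_dil dil_cont nc_dist_le)

/-! ### The position of the edges -/

theorem pos_up (δ : ℝ) (e : Ed) :
    pos δ (up e) = ⟨δ * (e.1 + e.2.1 / 2 + 1 / 2), δ * (√3 / 2 * (e.2.1 + 1 / 3))⟩ := by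
  unfold pos up
  simp

/-- The ends of an edge are at distance at most `δ`. -/
theorem dist_ends {δ : ℝ} (hδ : 0 ≤ δ) (e : Ed) : dist (pos δ (up e)) (pos δ (dn e)) ≤ δ := by
  obtain ⟨i, j, k⟩ := e
  have h3 := sq3'
  have h4 : √3 * √3 = 3 := Real.mul_self_sqrt (by norm_num)
  rw [dist_comm, Complex.dist_eq, pos_up]
  obtain ⟨t, ht⟩ : ∃ t, t = √3 / 2 := ⟨_, rfl⟩
  have h5 : t * t = 3/4 := by rw [ht]; nlinarith
  rw [← ht] at h3 ⊢
  have key : ∀ a b : ℝ, a ^ 2 + b ^ 2 ≤ δ ^ 2 → ‖(⟨a, b⟩ : ℂ)‖ ≤ δ := by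
    intro a b hab
    rw [← sq_le_sq₀ (norm_nonneg _) hδ, ← Complex.normSq_eq_norm_sq, Complex.normSq_mk]
    linarith
  cases k
  · have e1 : pos δ (dn (i, j, Dir.A)) =
        ⟨δ * (i + ((j - 1 : ℤ) : ℝ) / 2 + 1), δ * (√3 / 2 * (((j - 1 : ℤ) : ℝ) + 2 / 3))⟩ := by
      unfold pos dn; simp
    rw [e1, ← ht, show ((⟨δ * (i + ((j - 1 : ℤ) : ℝ) / 2 + 1), δ * (t * (((j - 1 : ℤ) : ℝ) + 2 / 3))⟩ : ℂ) -
        ⟨δ * (i + j / 2 + 1 / 2), δ * (t * (j + 1 / 3))⟩) =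
        ⟨δ * (((j - 1 : ℤ) : ℝ) / 2 - j / 2 + 1 / 2), δ * (t * (((j - 1 : ℤ) : ℝ) - j + 1 / 3))⟩ by
      apply Complex.ext <;> simp <;> ring]
    apply key
    push_cast
    have : (δ * (((j : ℝ) - 1) / 2 - j / 2 + 1 / 2)) ^ 2 + (δ * (t * (((j : ℝ) - 1) - j + 1 / 3))) ^ 2 =
        δ ^ 2 * (t * t) * (4 / 9) := by ring
    rw [this, h5]
    nlinarith [sq_nonneg δ]
  · have e1 : pos δ (dn (i, j, Dir.B)) =
        ⟨δ * (((i - 1 : ℤ) : ℝ) + j / 2 + 1), δ * (√3 / 2 * (j + 2 / 3))⟩ := by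
      unfold pos dn; simp
    rw [e1, ← ht, show ((⟨δ * (((i - 1 : ℤ) : ℝ) + j / 2 + 1), δ * (t * (j + 2 / 3))⟩ : ℂ) -
        ⟨δ * (i + j / 2 + 1 / 2), δ * (t * (j + 1 / 3))⟩) =
        ⟨δ * (((i - 1 : ℤ) : ℝ) - i + 1 / 2), δ * (t * (1 / 3))⟩ by
      apply Complex.ext <;> simp <;> ring]
    apply key
    push_cast
    have : (δ * (((i : ℝ) - 1) - i + 1 / 2)) ^ 2 + (δ * (t * (1 / 3))) ^ 2 =
        δ ^ 2 * (1 / 4) + δ ^ 2 * (t * t) * (1 / 9) := by ring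
    rw [this, h5]
    nlinarith [sq_nonneg δ]
  · have e1 : pos δ (dn (i, j, Dir.C)) =
        ⟨δ * (i + j / 2 + 1), δ * (√3 / 2 * (j + 2 / 3))⟩ := by
      unfold pos dn; simp
    rw [e1, ← ht, show ((⟨δ * (i + j / 2 + 1), δ * (t * (j + 2 / 3))⟩ : ℂ) -
        ⟨δ * (i + j / 2 + 1 / 2), δ * (t * (j + 1 / 3))⟩) =
        ⟨δ * (1 / 2), δ * (t * (1 / 3))⟩ by
      apply Complex.ext <;> simp <;> ring]
    apply key
    have : (δ * (1 / 2)) ^ 2 + (δ * (t * (1 / 3))) ^ 2 =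
        δ ^ 2 * (1 / 4) + δ ^ 2 * (t * t) * (1 / 9) := by ring
    rw [this, h5]
    nlinarith [sq_nonneg δ]

theorem seg_dist {δ : ℝ} (hδ : 0 ≤ δ) {e : Ed} {z : ℂ}
    (hz : z ∈ segment ℝ (pos δ (up e)) (pos δ (dn e))) : dist z (pos δ (up e)) ≤ δ := by
  refine le_trans ?_ (dist_ends hδ e)
  rw [dist_comm (pos δ (up e))]
  rw [segment_eq_image] at hz
  obtain ⟨θ, ⟨h0, h1⟩, rfl⟩ := hz
  rw [dist_eq_norm, dist_eq_norm]
  have : (1 - θ) • pos δ (up e) + θ • pos δ (dn e) - pos δ (up e) =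
      θ • (pos δ (dn e) - pos δ (up e)) := by
    simp only [Complex.real_smul]
    push_cast
    ring
  rw [this, norm_smul, Real.norm_eq_abs, abs_of_nonneg h0]
  exact mul_le_of_le_one_left (norm_nonneg _) h1

/-- The position of the edges of the domain. -/
theorem edge_bd {G : TD} {δ K : ℝ} (hδ : 0 < δ) (hG : Siz G δ K) {e : Ed} (he : e ∈ G.E) :
    ‖pos δ (up e)‖ ≤ 2 * K + 3 * δ := by
  have h := G.mem_E.1 he
  obtain ⟨⟨h1, h2⟩, ⟨h3, h4⟩, h5, h6⟩ := h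
  have h7 := sq3'
  rw [pos_up]
  obtain ⟨t, ht⟩ : ∃ t, t = √3 / 2 := ⟨_, rfl⟩
  have hlo := hG.lo
  have hhi := hG.hi
  rw [← ht] at h7 hlo hhi ⊢
  obtain ⟨f1, hf1, hf1'⟩ : ∃ f : Hx, G.w f.2 < f.1 ∧ (f = s1 e ∨ f = s2 e) := by
    by_contra hc
    push Not at hc
    apply h5
    constructor
    · show (s1 e).1 ≤ G.w (s1 e).2
      by_contra h'
      exact (hc (s1 e) (not_le.1 h')).1 rfl
    · show (s2 e).1 ≤ G.w (s2 e).2
      by_contra h'
      exact (hc (s2 e) (not_le.1 h')).2 rfl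
  obtain ⟨f2, hf2, hf2'⟩ : ∃ f : Hx, f.1 < G.z f.2 ∧ (f = s1 e ∨ f = s2 e) := by
    by_contra hc
    push Not at hc
    apply h6
    constructor
    · show G.z (s1 e).2 ≤ (s1 e).1
      by_contra h'
      exact (hc (s1 e) (not_le.1 h')).1 rfl
    · show G.z (s2 e).2 ≤ (s2 e).1
      by_contra h'
      exact (hc (s2 e) (not_le.1 h')).2 rfl
  have near : ∀ f : Hx, (f = s1 e ∨ f = s2 e) →
      |((f.1 : ℝ) + f.2 / 2) - (e.1 + e.2.1 / 2 + 1 / 2)| ≤ 1 := by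
    obtain ⟨i, j, k⟩ := e
    intro f hf
    rw [abs_le]
    rcases hf with rfl | rfl <;> cases k <;> simp only [s1, s2] <;> push_cast <;>
      constructor <;> linarith
  have row : (G.lo : ℝ) ≤ e.2.1 ∧ (e.2.1 : ℝ) ≤ G.hi := by
    have : G.lo ≤ e.2.1 ∧ e.2.1 ≤ G.hi := by
      obtain ⟨i, j, k⟩ := e
      cases k <;> simp only [s1, s2] at h1 h2 ⊢ <;> omega
    exact ⟨by exact_mod_cast this.1, by exact_mod_cast this.2⟩
  have n1 := abs_le.1 (near f1 hf1')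
  have n2 := abs_le.1 (near f2 hf2')
  have w1 := hG.w f1.2
  have z1 := hG.z f2.2
  have w2 : ((G.w f1.2 : ℤ) : ℝ) ≤ f1.1 := by exact_mod_cast hf1.le
  have z2 : (f2.1 : ℝ) ≤ G.z f2.2 := by exact_mod_cast hf2.le
  obtain ⟨X, hX⟩ : ∃ X : ℝ, X = e.1 + e.2.1 / 2 + 1 / 2 := ⟨_, rfl⟩
  have r1 : |δ * X| ≤ K + δ := by
    rw [← hX] at n1 n2
    rw [abs_le]
    constructor
    · have : δ * (G.w f1.2 + (f1.2 : ℝ) / 2) ≤ δ * (X + 1) :=
        mul_le_mul_of_nonneg_left (by linarith [n1.2]) hδ.le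
      linarith
    · have : δ * (X - 1) ≤ δ * (G.z f2.2 + (f2.2 : ℝ) / 2) :=
        mul_le_mul_of_nonneg_left (by linarith [n2.1]) hδ.le
      linarith
  have r2 : |δ * (t * (e.2.1 + 1 / 3))| ≤ K + δ := by
    have p1 : δ * t * G.lo ≤ δ * t * e.2.1 :=
      mul_le_mul_of_nonneg_left row.1 (mul_nonneg hδ.le (by linarith))
    have p2 : δ * t * e.2.1 ≤ δ * t * G.hi :=
      mul_le_mul_of_nonneg_left row.2 (mul_nonneg hδ.le (by linarith))
    have p3 : 0 ≤ δ * t := mul_nonneg hδ.le (by linarith)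
    have p4 : δ * t ≤ δ := by nlinarith
    have p5 : δ * (t * (e.2.1 + 1 / 3)) = δ * t * e.2.1 + δ * t / 3 := by ring
    rw [p5, abs_le]
    constructor <;> linarith
  rw [hX] at r1
  refine (Complex.norm_le_abs_re_add_abs_im _).trans ?_
  show |δ * (e.1 + e.2.1 / 2 + 1 / 2)| + |δ * (t * (e.2.1 + 1 / 3))| ≤ _
  linarith

theorem top_mem (G : TD) : ((G.w G.hi, G.hi, Dir.A) : Ed) ∈ G.E := by
  rw [G.mem_E]
  have h1 := G.top G.hi le_rfl
  have h2 := G.lohi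
  unfold TD.ES TD.W TD.Z
  simp only [Set.mem_ofPred_eq, s1, s2]
  refine ⟨⟨h2.le, le_rfl⟩, ⟨h2.le, le_rfl⟩, ?_, ?_⟩
  · intro h
    omega
  · intro h
    omega

/-- The trace is in a ball. -/
theorem trace_ball {G : TD} {δ K : ℝ} (hδ : 0 < δ) (hG : Siz G δ K)
    {F : Finset Hx} {z : ℂ} (hz : z ∈ (trace δ G.a (G.om F) : Set ℂ)) :
    ‖z‖ ≤ 2 * K + 4 * δ := by
  classical
  have hz' : z ∈ curve δ G.a (thru (G.om F) {G.a}) := hz
  unfold curve at hz'
  rcases hz' with h | h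
  · rw [Set.mem_singleton_iff] at h
    have h1 := edge_bd hδ hG (top_mem G)
    rw [h]
    have e : G.a = up (G.w G.hi, G.hi, Dir.A) := rfl
    rw [e]
    linarith
  · simp only [Set.mem_iUnion] at h
    obtain ⟨e, he, hz2⟩ := h
    have h1 : e ∈ G.E := by
      have h1' : e ∈ G.om F := by
        unfold thru at he
        exact (Finset.mem_filter.1 he).1
      unfold TD.om at h1'
      exact (Finset.mem_filter.1 h1').1
    have h2 := edge_bd hδ hG h1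
    have h3 := seg_dist hδ.le hz2
    have h4 : ‖z‖ ≤ ‖pos δ (up e)‖ + dist z (pos δ (up e)) := by
      rw [dist_eq_norm]
      have := norm_add_le (pos δ (up e)) (z - pos δ (up e))
      rwa [add_sub_cancel] at this
    linarith

/-! ### Scaling -/

theorem pos_scale (c δ : ℝ) (v : Vx) : pos (c * δ) v = (c : ℂ) * pos δ v := by
  unfold pos
  split_ifs <;> apply Complex.ext <;> simp <;> ring

theorem trace_scale (a : Vx) (c δ : ℝ) (ω : Finset Ed) :
    trace (c * δ) a ω = dil c (trace δ a ω) := by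
  apply NonemptyCompacts.ext
  ext z
  rw [mem_dil]
  show z ∈ curve (c * δ) a (thru ω {a}) ↔ ∃ w ∈ curve δ a (thru ω {a}), (c : ℂ) * w = z
  unfold curve
  have hs : ∀ e : Ed, segment ℝ (pos (c * δ) (up e)) (pos (c * δ) (dn e)) =
      (fun w : ℂ => (c : ℂ) * w) '' segment ℝ (pos δ (up e)) (pos δ (dn e)) := by
    intro e
    rw [segment_eq_image, segment_eq_image, Set.image_image, pos_scale, pos_scale]
    apply Set.image_congr
    intro θ _
    simp only [Complex.real_smul]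
    ring
  simp only [Set.singleton_union, Set.mem_insert_iff, Set.mem_iUnion, hs]
  constructor
  · rintro (h | ⟨e, he, w, hw, rfl⟩)
    · exact ⟨pos δ a, Or.inl rfl, by rw [h, pos_scale]⟩
    · exact ⟨w, Or.inr ⟨e, he, hw⟩, rfl⟩
  · rintro ⟨w, h | ⟨e, he, hw⟩, rfl⟩
    · left
      rw [h, pos_scale]
    · exact Or.inr ⟨e, he, w, hw, rfl⟩

theorem law_scale (D : TD) (π : Par) (c δ : ℝ) :
    D.law π (c * δ) = (D.law π δ).map (dil_cont c).measurable.aemeasurable := by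
  apply ProbabilityMeasure.toMeasure_injective
  rw [ProbabilityMeasure.toMeasure_map]
  ext G hG
  unfold TD.law
  rw [Measure.map_apply (dil_cont c).measurable hG, D.lawN_apply π _ hG,
    D.lawN_apply π _ ((dil_cont c).measurable hG)]
  simp only [trace_scale, Set.mem_preimage]

/-- Change of the mesh. -/
theorem mesh_lp {G : TD} {π : Par} {δ δ' K : ℝ} (hδ' : 0 < δ') (hG : Siz G δ' K) :
    dist (fl G π δ) (fl G π δ') ≤ |δ - δ'| / δ' * (2 * K + 4 * δ') := by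
  have hK := hG.pos hδ'
  apply lp_same (D := G) (π := π) (by positivity)
  intro F hF
  have e1 : trace δ G.a (G.om F) = dil (δ / δ') (trace δ' G.a (G.om F)) := by
    rw [← trace_scale, div_mul_cancel₀ _ hδ'.ne']
  have key : ∀ w ∈ trace δ' G.a (G.om F), dist (((δ / δ' : ℝ) : ℂ) * w) w ≤
      |δ - δ'| / δ' * (2 * K + 4 * δ') := by
    intro w hw
    have h1 := trace_ball hδ' hG hw
    have e2 : ((δ / δ' : ℝ) : ℂ) * w - w = (((δ - δ') / δ' : ℝ) : ℂ) * w := by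
      have : (δ - δ') / δ' = δ / δ' - 1 := by field_simp
      rw [this]
      push_cast
      ring
    rw [Complex.dist_eq, e2, norm_mul, Complex.norm_real, Real.norm_eq_abs, abs_div,
      abs_of_pos hδ']
    exact mul_le_mul_of_nonneg_left h1 (by positivity)
  rw [e1]
  apply nc_dist_le (by positivity)
  · intro x hx
    rw [← SetLike.mem_coe, mem_dil] at hx
    obtain ⟨w, hw, rfl⟩ := hx
    exact ⟨w, hw, key w hw⟩
  · intro w hw
    refine ⟨((δ / δ' : ℝ) : ℂ) * w, SetLike.mem_coe.1 (mem_dil.2 ⟨w, hw, rfl⟩), ?_⟩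
    rw [dist_comm]
    exact key w hw

end Pool.Agent.H950.ON
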